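import Pool.Agent.Lib.MP_904b2a_gt.PSS
import Pool.Agent.Lib.MP_904b2a_gt.Sums

/-!
# MP_904b2a_gt, module ALG: simplicial modules, tensor products, chains and symmetric powers of
pointed simplicial sets (common definitions of ALG-1 and ALG-2)
-/

open scoped BigOperators TensorProduct

namespace Pool.Agent.Lib.MP_904b2a_gt

noncomputable section

/-- Simplicial abelian groups. The faces `d n i : T (n+1) → T n` are meaningful for `i ≤ n + 1`,
the degeneracies `s n i : T n → T (n+1)` for `i ≤ n`. -/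
structure SM where
  T : ℕ → Type
  [ab : ∀ n, AddCommGroup (T n)]
  d : ∀ n, ℕ → T (n + 1) →+ T n
  s : ∀ n, ℕ → T n →+ T (n + 1)
  d_d : ∀ n i j (x : T (n + 2)), i ≤ j → j ≤ n + 1 →
    d n i (d (n + 1) (j + 1) x) = d n j (d (n + 1) i x)
  s_s : ∀ n i j (x : T n), i ≤ j → j ≤ n →
    s (n + 1) i (s n j x) = s (n + 1) (j + 1) (s n i x)
  d_s_lt : ∀ n i j (x : T (n + 1)), i ≤ j → j ≤ n →
    d (n + 1) i (s (n + 1) (j + 1) x) = s n j (d n i x)
  d_s_eq : ∀ n j (x : T n), j ≤ n → d n j (s n j x) = x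
  d_s_succ : ∀ n j (x : T n), j ≤ n → d n (j + 1) (s n j x) = x
  d_s_gt : ∀ n i j (x : T (n + 1)), j < i → i ≤ n + 1 →
    d (n + 1) (i + 1) (s (n + 1) j x) = s n j (d n i x)

/-- Additive maps on a tensor product are determined by their values on pure tensors. -/
theorem tadd_ext {A B C : Type} [AddCommGroup A] [AddCommGroup B] [AddCommGroup C]
    {f g : A ⊗[ℤ] B →+ C} (h : ∀ x y, f (x ⊗ₜ[ℤ] y) = g (x ⊗ₜ[ℤ] y)) : f = g := by
  ext z
  induction z using TensorProduct.induction_on with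
  | zero => simp
  | tmul x y => exact h x y
  | add z w hz hw => rw [map_add, map_add, hz, hw]

/-- The tensor product of additive maps. -/
def tmap {A A' B B' : Type} [AddCommGroup A] [AddCommGroup A'] [AddCommGroup B] [AddCommGroup B']
    (f : A →+ A') (g : B →+ B') : A ⊗[ℤ] B →+ A' ⊗[ℤ] B' :=
  (TensorProduct.map f.toIntLinearMap g.toIntLinearMap).toAddMonoidHom

@[simp] theorem tmap_tmul {A A' B B' : Type} [AddCommGroup A] [AddCommGroup A'] [AddCommGroup B]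
    [AddCommGroup B'] (f : A →+ A') (g : B →+ B') (x : A) (y : B) :
    tmap f g (x ⊗ₜ[ℤ] y) = f x ⊗ₜ[ℤ] g y := rfl

namespace SM

attribute [instance] SM.ab

/-- The boundary `∑ (-1)^i d_i`. -/
def bd (X : SM) (n : ℕ) : X.T (n + 1) →+ X.T n :=
  ∑ i ∈ Finset.range (n + 2), (-1 : ℤ) ^ i • X.d n i

theorem bd_apply (X : SM) (n : ℕ) (x : X.T (n + 1)) :
    X.bd n x = ∑ i ∈ Finset.range (n + 2), (-1 : ℤ) ^ i • X.d n i x := by
  rw [bd, AddMonoidHom.finsetSum_apply]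
  rfl

theorem bd_bd (X : SM) (n : ℕ) (x : X.T (n + 2)) : X.bd n (X.bd (n + 1) x) = 0 := by
  rw [bd_apply]
  simp only [bd_apply, map_sum, map_zsmul, Finset.smul_sum, smul_smul]
  rw [Finset.sum_comm]
  have := face_sum (n + 1) (fun i j => X.d n i (X.d (n + 1) j x))
    (fun i j hij hj => X.d_d n i j x hij (by omega))
  rw [← this]
  refine Finset.sum_congr rfl (fun j _ => Finset.sum_congr rfl (fun i _ => ?_))
  rw [pow_add]

/-- Cycles (every element of degree zero is a cycle). -/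
def Cyc (X : SM) : ∀ k : ℕ, X.T k → Prop
  | 0, _ => True
  | k + 1, x => X.bd k x = 0

@[simp] theorem cyc_zero (X : SM) (x : X.T 0) : X.Cyc 0 x := trivial

theorem cyc_succ (X : SM) (k : ℕ) (x : X.T (k + 1)) : X.Cyc (k + 1) x ↔ X.bd k x = 0 := Iff.rfl

theorem cyc_bd (X : SM) (k : ℕ) (x : X.T (k + 1)) : X.Cyc k (X.bd k x) := by
  cases k with
  | zero => trivial
  | succ k => exact X.bd_bd k x

/-- `H_k(X) = 0`. -/
def HZ (X : SM) (k : ℕ) : Prop := ∀ x : X.T k, X.Cyc k x → ∃ y, X.bd k y = x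

/-- All homology groups vanish. -/
def Acyclic (X : SM) : Prop := ∀ k, X.HZ k

/-- The tensor product (levelwise). -/
def tensor (X Y : SM) : SM where
  T n := X.T n ⊗[ℤ] Y.T n
  d n i := tmap (X.d n i) (Y.d n i)
  s n i := tmap (X.s n i) (Y.s n i)
  d_d n i j z hij hj := by
    refine DFunLike.congr_fun (f := (tmap (X.d n i) (Y.d n i)).comp
      (tmap (X.d (n + 1) (j + 1)) (Y.d (n + 1) (j + 1)))) (g := (tmap (X.d n j) (Y.d n j)).comp
      (tmap (X.d (n + 1) i) (Y.d (n + 1) i))) (tadd_ext (fun x y => ?_)) z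
    simp only [AddMonoidHom.comp_apply, tmap_tmul]
    rw [X.d_d n i j x hij hj, Y.d_d n i j y hij hj]
  s_s n i j z hij hj := by
    refine DFunLike.congr_fun (f := (tmap (X.s (n + 1) i) (Y.s (n + 1) i)).comp
      (tmap (X.s n j) (Y.s n j))) (g := (tmap (X.s (n + 1) (j + 1)) (Y.s (n + 1) (j + 1))).comp
      (tmap (X.s n i) (Y.s n i))) (tadd_ext (fun x y => ?_)) z
    simp only [AddMonoidHom.comp_apply, tmap_tmul]
    rw [X.s_s n i j x hij hj, Y.s_s n i j y hij hj]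
  d_s_lt n i j z hij hj := by
    refine DFunLike.congr_fun (f := (tmap (X.d (n + 1) i) (Y.d (n + 1) i)).comp
      (tmap (X.s (n + 1) (j + 1)) (Y.s (n + 1) (j + 1)))) (g := (tmap (X.s n j) (Y.s n j)).comp
      (tmap (X.d n i) (Y.d n i))) (tadd_ext (fun x y => ?_)) z
    simp only [AddMonoidHom.comp_apply, tmap_tmul]
    rw [X.d_s_lt n i j x hij hj, Y.d_s_lt n i j y hij hj]
  d_s_eq n j z hj := by
    refine DFunLike.congr_fun (f := (tmap (X.d n j) (Y.d n j)).comp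
      (tmap (X.s n j) (Y.s n j))) (g := AddMonoidHom.id _)
      (tadd_ext (fun x y => ?_)) z
    simp only [AddMonoidHom.comp_apply, tmap_tmul, AddMonoidHom.id_apply]
    rw [X.d_s_eq n j x hj, Y.d_s_eq n j y hj]
  d_s_succ n j z hj := by
    refine DFunLike.congr_fun (f := (tmap (X.d n (j + 1)) (Y.d n (j + 1))).comp
      (tmap (X.s n j) (Y.s n j))) (g := AddMonoidHom.id _)
      (tadd_ext (fun x y => ?_)) z
    simp only [AddMonoidHom.comp_apply, tmap_tmul, AddMonoidHom.id_apply]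
    rw [X.d_s_succ n j x hj, Y.d_s_succ n j y hj]
  d_s_gt n i j z hij hi := by
    refine DFunLike.congr_fun (f := (tmap (X.d (n + 1) (i + 1)) (Y.d (n + 1) (i + 1))).comp
      (tmap (X.s (n + 1) j) (Y.s (n + 1) j))) (g := (tmap (X.s n j) (Y.s n j)).comp
      (tmap (X.d n i) (Y.d n i))) (tadd_ext (fun x y => ?_)) z
    simp only [AddMonoidHom.comp_apply, tmap_tmul]
    rw [X.d_s_gt n i j x hij hi, Y.d_s_gt n i j y hij hi]

@[simp] theorem tensor_d_tmul (X Y : SM) (n i : ℕ) (x : X.T (n + 1)) (y : Y.T (n + 1)) :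
    (X.tensor Y).d n i (x ⊗ₜ[ℤ] y) = X.d n i x ⊗ₜ[ℤ] Y.d n i y := rfl

@[simp] theorem tensor_s_tmul (X Y : SM) (n i : ℕ) (x : X.T n) (y : Y.T n) :
    (X.tensor Y).s n i (x ⊗ₜ[ℤ] y) = X.s n i x ⊗ₜ[ℤ] Y.s n i y := rfl

/-- A levelwise additive map compatible with the faces. -/
def IsMap {X Y : SM} (f : ∀ n, X.T n →+ Y.T n) : Prop :=
  ∀ n i x, i ≤ n + 1 → f n (X.d n i x) = Y.d n i (f (n + 1) x)

theorem IsMap.bd {X Y : SM} {f : ∀ n, X.T n →+ Y.T n} (hf : IsMap f) (n : ℕ)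
    (x : X.T (n + 1)) : f n (X.bd n x) = Y.bd n (f (n + 1) x) := by
  rw [bd_apply, bd_apply, map_sum]
  refine Finset.sum_congr rfl (fun i hi => ?_)
  rw [map_zsmul, hf n i x (Nat.lt_succ_iff.mp (Finset.mem_range.mp hi))]

theorem IsMap.cyc {X Y : SM} {f : ∀ n, X.T n →+ Y.T n} (hf : IsMap f) (n : ℕ)
    (x : X.T n) (hx : X.Cyc n x) : Y.Cyc n (f n x) := by
  cases n with
  | zero => trivial
  | succ n =>
    rw [cyc_succ] at hx ⊢
    rw [← hf.bd, hx, map_zero]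

end SM

/-! ### Reduced chains of a pointed simplicial set -/

namespace PSS

variable (K : PSS)

theorem ch_pt (n : ℕ) : K.ch n (K.pt n) = 0 := by simp [ch]

theorem ch_of_ne {n : ℕ} (b : K.B n) : K.ch n b.1 = Finsupp.single b 1 := by
  simp [ch, b.2]

/-- The map on reduced chains induced by a map of simplices. -/
def chMap {n m : ℕ} (f : K.K n → K.K m) : (K.B n →₀ ℤ) →ₗ[ℤ] (K.B m →₀ ℤ) :=
  Finsupp.linearCombination ℤ (fun b => K.ch m (f b.1))

theorem chMap_single {n m : ℕ} (f : K.K n → K.K m) (b : K.B n) :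
    K.chMap f (Finsupp.single b 1) = K.ch m (f b.1) := by simp [chMap]

theorem chMap_ch {n m : ℕ} (f : K.K n → K.K m) (hf : f (K.pt n) = K.pt m) (x : K.K n) :
    K.chMap f (K.ch n x) = K.ch m (f x) := by
  by_cases h : x = K.pt n
  · rw [h, hf, ch_pt, ch_pt, map_zero]
  · rw [K.ch_of_ne ⟨x, h⟩, chMap_single]

theorem chMap_comp {n m l : ℕ} (f : K.K n → K.K m) (g : K.K m → K.K l)
    (hg : g (K.pt m) = K.pt l) :
    K.chMap g ∘ₗ K.chMap f = K.chMap (fun x => g (f x)) := by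
  ext b : 2
  simp [chMap_single, chMap_ch, hg]

theorem chMap_id {n : ℕ} (f : K.K n → K.K n) (hf : ∀ x, f x = x) :
    K.chMap f = LinearMap.id := by
  ext b : 2
  simp only [LinearMap.comp_apply, Finsupp.lsingle_apply, LinearMap.id_apply]
  rw [chMap_single, hf, ch_of_ne]

theorem dZ_eq (n i : ℕ) : K.dZ n i = K.chMap (K.d n i) := rfl

/-- The degeneracies on reduced chains. -/
def sZ (n i : ℕ) : (K.B n →₀ ℤ) →ₗ[ℤ] (K.B (n + 1) →₀ ℤ) := K.chMap (K.s n i)

theorem dZ_dZ (n i j : ℕ) (hij : i ≤ j) (hj : j ≤ n + 1) :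
    K.dZ n i ∘ₗ K.dZ (n + 1) (j + 1) = K.dZ n j ∘ₗ K.dZ (n + 1) i := by
  rw [dZ_eq, dZ_eq, dZ_eq, dZ_eq, chMap_comp _ _ _ (K.d_pt n i (by omega)),
    chMap_comp _ _ _ (K.d_pt n j (by omega))]
  congr 1
  ext x
  exact K.d_d n i j x hij hj

theorem sZ_sZ (n i j : ℕ) (hij : i ≤ j) (hj : j ≤ n) :
    K.sZ (n + 1) i ∘ₗ K.sZ n j = K.sZ (n + 1) (j + 1) ∘ₗ K.sZ n i := by
  rw [sZ, sZ, sZ, sZ, chMap_comp _ _ _ (K.s_pt (n + 1) i (by omega)),
    chMap_comp _ _ _ (K.s_pt (n + 1) (j + 1) (by omega))]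
  congr 1
  ext x
  exact K.s_s n i j x hij hj

theorem dZ_sZ_lt (n i j : ℕ) (hij : i ≤ j) (hj : j ≤ n) :
    K.dZ (n + 1) i ∘ₗ K.sZ (n + 1) (j + 1) = K.sZ n j ∘ₗ K.dZ n i := by
  rw [sZ, sZ, dZ_eq, dZ_eq, chMap_comp _ _ _ (K.d_pt (n + 1) i (by omega)),
    chMap_comp _ _ _ (K.s_pt n j (by omega))]
  congr 1
  ext x
  exact K.d_s_lt n i j x hij hj

theorem dZ_sZ_eq (n j : ℕ) (hj : j ≤ n) : K.dZ n j ∘ₗ K.sZ n j = LinearMap.id := by
  rw [sZ, dZ_eq, chMap_comp _ _ _ (K.d_pt n j (by omega)), chMap_id]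
  intro x
  exact K.d_s_eq n j x hj

theorem dZ_sZ_succ (n j : ℕ) (hj : j ≤ n) : K.dZ n (j + 1) ∘ₗ K.sZ n j = LinearMap.id := by
  rw [sZ, dZ_eq, chMap_comp _ _ _ (K.d_pt n (j + 1) (by omega)), chMap_id]
  intro x
  exact K.d_s_succ n j x hj

theorem dZ_sZ_gt (n i j : ℕ) (hij : j < i) (hi : i ≤ n + 1) :
    K.dZ (n + 1) (i + 1) ∘ₗ K.sZ (n + 1) j = K.sZ n j ∘ₗ K.dZ n i := by
  rw [sZ, sZ, dZ_eq, dZ_eq, chMap_comp _ _ _ (K.d_pt (n + 1) (i + 1) (by omega)),
    chMap_comp _ _ _ (K.s_pt n j (by omega))]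
  congr 1
  ext x
  exact K.d_s_gt n i j x hij hi

/-- The simplicial module of reduced chains. -/
def chain : SM where
  T n := K.B n →₀ ℤ
  d n i := (K.dZ n i).toAddMonoidHom
  s n i := (K.sZ n i).toAddMonoidHom
  d_d n i j x hij hj := LinearMap.congr_fun (K.dZ_dZ n i j hij hj) x
  s_s n i j x hij hj := LinearMap.congr_fun (K.sZ_sZ n i j hij hj) x
  d_s_lt n i j x hij hj := LinearMap.congr_fun (K.dZ_sZ_lt n i j hij hj) x
  d_s_eq n j x hj := LinearMap.congr_fun (K.dZ_sZ_eq n j hj) x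
  d_s_succ n j x hj := LinearMap.congr_fun (K.dZ_sZ_succ n j hj) x
  d_s_gt n i j x hij hi := LinearMap.congr_fun (K.dZ_sZ_gt n i j hij hi) x

theorem chain_d (n i : ℕ) (x : K.B (n + 1) →₀ ℤ) : K.chain.d n i x = K.dZ n i x := rfl

theorem bd_apply (n : ℕ) (x : K.B (n + 1) →₀ ℤ) :
    K.bd n x = ∑ i ∈ Finset.range (n + 2), (-1 : ℤ) ^ i • K.dZ n i x := by
  rw [bd, LinearMap.sum_apply]
  rfl

theorem chain_bd (n : ℕ) : K.chain.bd n = (K.bd n).toAddMonoidHom := by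
  ext1 x
  exact (SM.bd_apply K.chain n x).trans (K.bd_apply n x).symm

theorem chain_acyclic (h : K.Acyclic) : K.chain.Acyclic := by
  intro k
  cases k with
  | zero =>
    intro x _
    obtain ⟨y, hy⟩ := h.1 x
    exact ⟨y, (DFunLike.congr_fun (K.chain_bd 0) y).trans hy⟩
  | succ k =>
    intro x hx
    obtain ⟨y, hy⟩ := h.2 k x ((DFunLike.congr_fun (K.chain_bd k) x).symm.trans hx)
    exact ⟨y, (DFunLike.congr_fun (K.chain_bd (k + 1)) y).trans hy⟩

end PSS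

/-! ### The symmetric algebra of a free module, functorial for linear maps -/

section Sym

variable {B B' B'' : Type}

/-- A chain as a linear form. -/
def lin (B : Type) : (B →₀ ℤ) →ₗ[ℤ] MvPolynomial B ℤ :=
  Finsupp.linearCombination ℤ (fun b => (MvPolynomial.X b : MvPolynomial B ℤ))

@[simp] theorem lin_single (b : B) : lin B (Finsupp.single b 1) = MvPolynomial.X b := by
  simp [lin]

/-- The map of symmetric algebras induced by a linear map. -/
def symMap (φ : (B →₀ ℤ) →ₗ[ℤ] (B' →₀ ℤ)) : MvPolynomial B ℤ →ₐ[ℤ] MvPolynomial B' ℤ :=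
  MvPolynomial.aeval (fun b => lin B' (φ (Finsupp.single b 1)))

@[simp] theorem symMap_X (φ : (B →₀ ℤ) →ₗ[ℤ] (B' →₀ ℤ)) (b : B) :
    symMap φ (MvPolynomial.X b) = lin B' (φ (Finsupp.single b 1)) := by
  simp [symMap]

theorem symMap_lin (φ : (B →₀ ℤ) →ₗ[ℤ] (B' →₀ ℤ)) (x : B →₀ ℤ) :
    symMap φ (lin B x) = lin B' (φ x) := by
  have : (symMap φ).toLinearMap ∘ₗ lin B = lin B' ∘ₗ φ := by
    ext b : 2
    simp
  exact LinearMap.congr_fun this x

theorem symMap_comp (φ : (B →₀ ℤ) →ₗ[ℤ] (B' →₀ ℤ)) (ψ : (B' →₀ ℤ) →ₗ[ℤ] (B'' →₀ ℤ)) :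
    (symMap ψ).comp (symMap φ) = symMap (ψ ∘ₗ φ) := by
  refine MvPolynomial.algHom_ext (fun b => ?_)
  simp [symMap_lin]

theorem symMap_id : symMap (LinearMap.id : (B →₀ ℤ) →ₗ[ℤ] (B →₀ ℤ)) = AlgHom.id ℤ _ := by
  refine MvPolynomial.algHom_ext (fun b => ?_)
  simp

theorem symMap_symMap (φ : (B →₀ ℤ) →ₗ[ℤ] (B' →₀ ℤ)) (ψ : (B' →₀ ℤ) →ₗ[ℤ] (B'' →₀ ℤ))
    (f : MvPolynomial B ℤ) : symMap ψ (symMap φ f) = symMap (ψ ∘ₗ φ) f := by
  rw [← symMap_comp]; rfl

theorem isHomogeneous_lin (x : B →₀ ℤ) : (lin B x).IsHomogeneous 1 := by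
  rw [lin, Finsupp.linearCombination_apply, Finsupp.sum]
  refine MvPolynomial.IsHomogeneous.sum _ _ _ (fun b _ => ?_)
  rw [MvPolynomial.smul_eq_C_mul]
  simpa using (MvPolynomial.isHomogeneous_C B (x b)).mul (MvPolynomial.isHomogeneous_X ℤ b)

theorem symMap_isHomogeneous (φ : (B →₀ ℤ) →ₗ[ℤ] (B' →₀ ℤ)) {f : MvPolynomial B ℤ} {p : ℕ}
    (hf : f.IsHomogeneous p) : (symMap φ f).IsHomogeneous p := by
  have := hf.aeval (fun b => lin B' (φ (Finsupp.single b 1))) (n := 1)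
    (fun b => isHomogeneous_lin _)
  rw [one_mul] at this
  exact this

/-- `symMap` as an additive map. -/
def symAdd (φ : (B →₀ ℤ) →ₗ[ℤ] (B' →₀ ℤ)) : MvPolynomial B ℤ →+ MvPolynomial B' ℤ :=
  (symMap φ).toLinearMap.toAddMonoidHom

@[simp] theorem symAdd_apply (φ : (B →₀ ℤ) →ₗ[ℤ] (B' →₀ ℤ)) (f : MvPolynomial B ℤ) :
    symAdd φ f = symMap φ f := rfl

/-- The homogeneous polynomials of degree `p`: the `p`-th symmetric power. -/
abbrev SymP (B : Type) (p : ℕ) : Type := MvPolynomial.homogeneousSubmodule B ℤ p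

/-- `symMap` on homogeneous polynomials of degree `p`. -/
def symPAdd (p : ℕ) (φ : (B →₀ ℤ) →ₗ[ℤ] (B' →₀ ℤ)) : SymP B p →+ SymP B' p where
  toFun f := ⟨symMap φ f.1, symMap_isHomogeneous φ f.2⟩
  map_zero' := Subtype.ext (by simp)
  map_add' f g := Subtype.ext (by simp)

@[simp] theorem symPAdd_val (p : ℕ) (φ : (B →₀ ℤ) →ₗ[ℤ] (B' →₀ ℤ)) (f : SymP B p) :
    (symPAdd p φ f).1 = symMap φ f.1 := rfl

end Sym

namespace PSS

variable (K : PSS)

/-- The symmetric algebra of the reduced chains. -/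
def sym : SM where
  T n := MvPolynomial (K.B n) ℤ
  d n i := symAdd (K.dZ n i)
  s n i := symAdd (K.sZ n i)
  d_d n i j x hij hj := by
    simp only [symAdd_apply, symMap_symMap]
    rw [K.dZ_dZ n i j hij hj]
  s_s n i j x hij hj := by
    simp only [symAdd_apply, symMap_symMap]
    rw [K.sZ_sZ n i j hij hj]
  d_s_lt n i j x hij hj := by
    simp only [symAdd_apply, symMap_symMap]
    rw [K.dZ_sZ_lt n i j hij hj]
  d_s_eq n j x hj := by
    simp only [symAdd_apply, symMap_symMap]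
    rw [K.dZ_sZ_eq n j hj, symMap_id]
    rfl
  d_s_succ n j x hj := by
    simp only [symAdd_apply, symMap_symMap]
    rw [K.dZ_sZ_succ n j hj, symMap_id]
    rfl
  d_s_gt n i j x hij hi := by
    simp only [symAdd_apply, symMap_symMap]
    rw [K.dZ_sZ_gt n i j hij hi]

/-- The `p`-th symmetric power of the reduced chains. -/
def symP (p : ℕ) : SM where
  T n := SymP (K.B n) p
  d n i := symPAdd p (K.dZ n i)
  s n i := symPAdd p (K.sZ n i)
  d_d n i j x hij hj := by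
    refine Subtype.ext ?_
    simp only [symPAdd_val, symMap_symMap]
    rw [K.dZ_dZ n i j hij hj]
  s_s n i j x hij hj := by
    refine Subtype.ext ?_
    simp only [symPAdd_val, symMap_symMap]
    rw [K.sZ_sZ n i j hij hj]
  d_s_lt n i j x hij hj := by
    refine Subtype.ext ?_
    simp only [symPAdd_val, symMap_symMap]
    rw [K.dZ_sZ_lt n i j hij hj]
  d_s_eq n j x hj := by
    refine Subtype.ext ?_
    simp only [symPAdd_val, symMap_symMap]
    rw [K.dZ_sZ_eq n j hj, symMap_id]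
    rfl
  d_s_succ n j x hj := by
    refine Subtype.ext ?_
    simp only [symPAdd_val, symMap_symMap]
    rw [K.dZ_sZ_succ n j hj, symMap_id]
    rfl
  d_s_gt n i j x hij hi := by
    refine Subtype.ext ?_
    simp only [symPAdd_val, symMap_symMap]
    rw [K.dZ_sZ_gt n i j hij hi]

end PSS

end

end Pool.Agent.Lib.MP_904b2a_gt
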