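import Pool.Agent.Lib.MP_904b2a_gt.H49.SM

/-!
# MP_904b2a_gt, module ALG, step A8: from symmetric powers to `ℤ[ℕ[K]] / ℤ[K]`
-/

open scoped BigOperators TensorProduct

namespace Pool.Agent.Lib.MP_904b2a_gt

noncomputable section

open MvPolynomial

section Basic

variable {B B' : Type}

theorem homogeneousComponent_symMap (φ : (B →₀ ℤ) →ₗ[ℤ] (B' →₀ ℤ)) (p : ℕ)
    (f : MvPolynomial B ℤ) :
    homogeneousComponent p (symMap φ f) = symMap φ (homogeneousComponent p f) := by
  have h : ∀ i, homogeneousComponent p (symMap φ (homogeneousComponent i f)) =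
      if i = p then symMap φ (homogeneousComponent p f) else 0 := by
    intro i
    have hi : symMap φ (homogeneousComponent i f) ∈ homogeneousSubmodule B' ℤ i :=
      symMap_isHomogeneous φ (homogeneousComponent_isHomogeneous i f)
    rw [homogeneousComponent_of_mem hi]
    by_cases h : p = i
    · subst h; simp
    · rw [if_neg h, if_neg (fun h' => h h'.symm)]
  by_cases hp : p ∈ Finset.range (f.totalDegree + 1)
  · conv_lhs => rw [← sum_homogeneousComponent f, map_sum, map_sum]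
    rw [Finset.sum_congr rfl (fun i _ => h i), Finset.sum_ite_eq' _ p, if_pos hp]
  · conv_lhs => rw [← sum_homogeneousComponent f, map_sum, map_sum]
    rw [Finset.sum_congr rfl (fun i _ => h i), Finset.sum_ite_eq' _ p, if_neg hp]
    have : f.totalDegree < p := by
      rw [Finset.mem_range] at hp; omega
    rw [homogeneousComponent_eq_zero _ _ this, map_zero]

/-- Polynomials of degree at most one. -/
def Aff (f : MvPolynomial B ℤ) : Prop := ∃ (a : ℤ) (c : B →₀ ℤ), f = C a + lin B c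

theorem Aff.add {f g : MvPolynomial B ℤ} (hf : Aff f) (hg : Aff g) : Aff (f + g) := by
  obtain ⟨a, c, rfl⟩ := hf
  obtain ⟨a', c', rfl⟩ := hg
  exact ⟨a + a', c + c', by rw [map_add, map_add]; ring⟩

theorem aff_zero : Aff (0 : MvPolynomial B ℤ) := ⟨0, 0, by simp⟩

theorem Aff.smul {f : MvPolynomial B ℤ} (hf : Aff f) (n : ℤ) : Aff (n • f) := by
  obtain ⟨a, c, rfl⟩ := hf
  refine ⟨n * a, n • c, ?_⟩
  rw [smul_add, LinearMap.map_smul, map_mul, smul_eq_C_mul (C a) n]

theorem Aff.neg {f : MvPolynomial B ℤ} (hf : Aff f) : Aff (-f) := by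
  have := hf.smul (-1)
  simpa using this

theorem Aff.sub {f g : MvPolynomial B ℤ} (hf : Aff f) (hg : Aff g) : Aff (f - g) := by
  rw [sub_eq_add_neg]; exact hf.add hg.neg

theorem aff_sum {ι : Type*} (s : Finset ι) (f : ι → MvPolynomial B ℤ) (h : ∀ i ∈ s, Aff (f i)) :
    Aff (∑ i ∈ s, f i) := by
  classical
  induction s using Finset.induction_on with
  | empty => simpa using aff_zero
  | insert a s ha ih =>
    rw [Finset.sum_insert ha]
    exact (h a (Finset.mem_insert_self _ _)).add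
      (ih (fun i hi => h i (Finset.mem_insert_of_mem hi)))

theorem Aff.homogeneousComponent {f : MvPolynomial B ℤ} (hf : Aff f) {p : ℕ} (hp : 2 ≤ p) :
    MvPolynomial.homogeneousComponent p f = 0 := by
  obtain ⟨a, c, rfl⟩ := hf
  have h1 : C a ∈ homogeneousSubmodule B ℤ 0 := isHomogeneous_C B a
  have h2 : lin B c ∈ homogeneousSubmodule B ℤ 1 := isHomogeneous_lin c
  rw [map_add, homogeneousComponent_of_mem h1, homogeneousComponent_of_mem h2,
    if_neg (by omega), if_neg (by omega), add_zero]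

theorem aff_of_isHomogeneous_zero {f : MvPolynomial B ℤ} (hf : f.IsHomogeneous 0) : Aff f := by
  rw [← totalDegree_zero_iff_isHomogeneous, totalDegree_eq_zero_iff_eq_C] at hf
  exact ⟨coeff 0 f, 0, by rw [LinearMap.map_zero, add_zero]; exact hf⟩

theorem aff_of_isHomogeneous_one {f : MvPolynomial B ℤ} (hf : f.IsHomogeneous 1) : Aff f := by
  have h : f ∈ homogeneousSubmodule B ℤ 1 := hf
  rw [homogeneousSubmodule_one_eq_span_X] at h
  clear hf
  induction h using Submodule.span_induction with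
  | mem x hx =>
    obtain ⟨b, rfl⟩ := hx
    exact ⟨0, Finsupp.single b 1, by simp⟩
  | zero => exact aff_zero
  | add x y _ _ hx hy => exact hx.add hy
  | smul a x _ hx => exact hx.smul a

/-- The substitution `X_b ↦ X_b + 1`. -/
def shUp (B : Type) : MvPolynomial B ℤ →ₐ[ℤ] MvPolynomial B ℤ := aeval (fun b => X b + 1)

/-- The substitution `X_b ↦ X_b - 1`. -/
def shDn (B : Type) : MvPolynomial B ℤ →ₐ[ℤ] MvPolynomial B ℤ := aeval (fun b => X b - 1)

theorem shDn_shUp (f : MvPolynomial B ℤ) : shDn B (shUp B f) = f := by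
  have : (shDn B).comp (shUp B) = AlgHom.id ℤ _ := by
    refine MvPolynomial.algHom_ext (fun b => ?_)
    simp [shDn, shUp]
  exact DFunLike.congr_fun this f

theorem shUp_shDn (f : MvPolynomial B ℤ) : shUp B (shDn B f) = f := by
  have : (shUp B).comp (shDn B) = AlgHom.id ℤ _ := by
    refine MvPolynomial.algHom_ext (fun b => ?_)
    simp [shDn, shUp]
  exact DFunLike.congr_fun this f

theorem aff_lin (c : B →₀ ℤ) : Aff (lin B c) := ⟨0, c, by simp⟩

theorem aff_C (a : ℤ) : Aff (C a : MvPolynomial B ℤ) := ⟨a, 0, by simp⟩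

theorem Aff.map {f : MvPolynomial B ℤ} (hf : Aff f) (g : MvPolynomial B ℤ →ₐ[ℤ] MvPolynomial B' ℤ)
    (hg : ∀ b, Aff (g (X b))) : Aff (g f) := by
  obtain ⟨a, c, rfl⟩ := hf
  rw [map_add]
  refine Aff.add ?_ ?_
  · rw [← algebraMap_eq, AlgHom.commutes]
    exact aff_C a
  · rw [lin, Finsupp.linearCombination_apply, Finsupp.sum, map_sum]
    refine aff_sum _ _ (fun b _ => ?_)
    rw [map_smul]
    exact (hg b).smul _

theorem Aff.shUp {f : MvPolynomial B ℤ} (hf : Aff f) : Aff (shUp B f) := by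
  refine hf.map _ (fun b => ?_)
  simp only [MP_904b2a_gt.shUp, aeval_X]
  exact ⟨1, Finsupp.single b 1, by simp [add_comm]⟩

theorem Aff.shDn {f : MvPolynomial B ℤ} (hf : Aff f) : Aff (shDn B f) := by
  refine hf.map _ (fun b => ?_)
  simp only [MP_904b2a_gt.shDn, aeval_X]
  exact ⟨-1, Finsupp.single b 1, by simp [sub_eq_neg_add]⟩

end Basic

namespace PSS

variable (K : PSS)

open Classical in
/-- The variable of a simplex (one for the base point). -/
def X1 (n : ℕ) (x : K.K n) : MvPolynomial (K.B n) ℤ :=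
  if h : x = K.pt n then 1 else X ⟨x, h⟩

theorem X1_pt (n : ℕ) : K.X1 n (K.pt n) = 1 := by simp [X1]

theorem X1_of_ne {n : ℕ} (b : K.B n) : K.X1 n b.1 = X b := by simp [X1, b.2]

theorem ms_pt (n : ℕ) : K.ms n (K.pt n) = 0 := by simp [ms]

theorem ms_of_ne {n : ℕ} (b : K.B n) : K.ms n b.1 = Finsupp.single b 1 := by simp [ms, b.2]

theorem monomial_ms (n : ℕ) (x : K.K n) : monomial (K.ms n x) (1 : ℤ) = K.X1 n x := by
  by_cases h : x = K.pt n
  · rw [h, ms_pt, X1_pt]; rfl
  · rw [K.ms_of_ne ⟨x, h⟩, K.X1_of_ne ⟨x, h⟩]; rfl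

/-- The faces of the monoid ring `ℤ[ℕ[K]]`. -/
def mD (n i : ℕ) : MvPolynomial (K.B (n + 1)) ℤ →ₐ[ℤ] MvPolynomial (K.B n) ℤ :=
  aeval (fun b => K.X1 n (K.d n i b.1))

theorem mD_monomial (n i : ℕ) (m : K.M (n + 1)) :
    K.mD n i (monomial m 1) = monomial (K.dM n i m) 1 := by
  induction m using Finsupp.induction_linear with
  | zero => simp [mD]
  | add f g hf hg =>
    have h1 : (monomial (f + g) (1 : ℤ) : MvPolynomial (K.B (n + 1)) ℤ) =
        monomial f 1 * monomial g 1 := by rw [monomial_mul, one_mul]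
    rw [h1, map_mul, hf, hg, monomial_mul, one_mul, map_add]
  | single b k =>
    have h1 : (monomial (Finsupp.single b k) (1 : ℤ) : MvPolynomial (K.B (n + 1)) ℤ) = X b ^ k := by
      rw [X_pow_eq_monomial]
    rw [h1, map_pow, mD, aeval_X, dM, Finsupp.liftAddHom_apply_single, multiplesHom_apply,
      ← K.monomial_ms, monomial_pow, one_pow]

theorem shUp_X1 (n : ℕ) (x : K.K n) : shUp (K.B n) (K.X1 n x) = lin _ (K.ch n x) + 1 := by
  by_cases h : x = K.pt n
  · rw [h, ch_pt, X1_pt]; simp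
  · rw [K.X1_of_ne ⟨x, h⟩, K.ch_of_ne ⟨x, h⟩]; simp [shUp]

theorem shUp_mD (n i : ℕ) (f : MvPolynomial (K.B (n + 1)) ℤ) :
    shUp _ (K.mD n i f) = symMap (K.dZ n i) (shUp _ f) := by
  have : (shUp _).comp (K.mD n i) = (symMap (K.dZ n i)).comp (shUp _) := by
    refine MvPolynomial.algHom_ext (fun b => ?_)
    rw [AlgHom.comp_apply, AlgHom.comp_apply, mD, aeval_X, shUp_X1]
    simp only [shUp, aeval_X, map_add, symMap_X, map_one]
    rw [K.dZ_eq, chMap_single]
  exact DFunLike.congr_fun this f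

theorem mD_shDn (n i : ℕ) (f : MvPolynomial (K.B (n + 1)) ℤ) :
    K.mD n i (shDn _ f) = shDn _ (symMap (K.dZ n i) f) := by
  rw [← shDn_shUp (K.mD n i (shDn _ f)), shUp_mD, shUp_shDn]

/-- The projection `ℤ[ℕ[K]] → Q`. -/
def qN (n : ℕ) : MvPolynomial (K.B n) ℤ →ₗ[ℤ] (K.NL n →₀ ℤ) :=
  (basisMonomials (K.B n) ℤ).constr ℤ (K.chN n)

theorem qN_monomial (n : ℕ) (m : K.M n) : K.qN n (monomial m 1) = K.chN n m := by
  have := (basisMonomials (K.B n) ℤ).constr_basis ℤ (K.chN n) m
  rwa [coe_basisMonomials] at this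

theorem chN_ms (n : ℕ) (x : K.K n) : K.chN n (K.ms n x) = 0 := by
  rw [chN, dif_neg]
  intro h
  exact h x rfl

theorem chN_of (n : ℕ) (m : K.NL n) : K.chN n m.1 = Finsupp.single m 1 := by
  rw [chN, dif_pos m.2]

/-- The section `Q → ℤ[ℕ[K]]`. -/
def sN (n : ℕ) : (K.NL n →₀ ℤ) →ₗ[ℤ] MvPolynomial (K.B n) ℤ :=
  Finsupp.linearCombination ℤ (fun m => monomial m.1 1)

theorem qN_sN (n : ℕ) (x : K.NL n →₀ ℤ) : K.qN n (K.sN n x) = x := by
  have : K.qN n ∘ₗ K.sN n = LinearMap.id := by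
    ext m : 2
    simp only [LinearMap.comp_apply, Finsupp.lsingle_apply, LinearMap.id_apply, sN,
      Finsupp.linearCombination_single, one_smul]
    rw [qN_monomial, chN_of]
  exact LinearMap.congr_fun this x

theorem qN_aff (n : ℕ) {f : MvPolynomial (K.B n) ℤ} (hf : Aff f) : K.qN n f = 0 := by
  obtain ⟨a, c, rfl⟩ := hf
  have h0 : K.qN n (C a) = 0 := by
    have h1 : (C a : MvPolynomial (K.B n) ℤ) = a • monomial (K.ms n (K.pt n)) 1 := by
      rw [monomial_ms, X1_pt, smul_eq_C_mul, mul_one]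
    rw [h1, map_smul, qN_monomial, chN_ms, smul_zero]
  have h2 : K.qN n ∘ₗ lin (K.B n) = 0 := by
    ext b : 2
    simp only [LinearMap.comp_apply, Finsupp.lsingle_apply, LinearMap.zero_apply, lin_single]
    rw [← K.X1_of_ne b, ← monomial_ms, qN_monomial, chN_ms]
  have h3 := LinearMap.congr_fun h2 c
  rw [LinearMap.comp_apply, LinearMap.zero_apply] at h3
  rw [map_add, h0, h3, add_zero]

theorem aff_sub_sN_qN (n : ℕ) (f : MvPolynomial (K.B n) ℤ) : Aff (f - K.sN n (K.qN n f)) := by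
  induction f using MvPolynomial.induction_on' with
  | monomial m a =>
    have h1 : (monomial m a : MvPolynomial (K.B n) ℤ) = a • monomial m 1 := by
      rw [smul_monomial, smul_eq_mul, mul_one]
    rw [h1, map_smul, map_smul, ← smul_sub]
    refine Aff.smul ?_ a
    rw [qN_monomial]
    by_cases h : ∀ x : K.K n, m ≠ K.ms n x
    · have h2 := K.chN_of n ⟨m, h⟩
      rw [h2, sN, Finsupp.linearCombination_single, one_smul, sub_self]
      exact aff_zero
    · push Not at h
      obtain ⟨x, rfl⟩ := h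
      rw [chN_ms, map_zero, sub_zero, monomial_ms]
      by_cases hx : x = K.pt n
      · rw [hx, X1_pt]
        exact ⟨1, 0, by simp⟩
      · rw [K.X1_of_ne ⟨x, hx⟩]
        exact ⟨0, Finsupp.single (⟨x, hx⟩ : K.B n) 1, by simp⟩
  | add f g hf hg =>
    rw [map_add, map_add]
    have : f + g - (K.sN n (K.qN n f) + K.sN n (K.qN n g)) =
      (f - K.sN n (K.qN n f)) + (g - K.sN n (K.qN n g)) := by ring
    rw [this]
    exact hf.add hg

theorem aff_of_qN (n : ℕ) {f : MvPolynomial (K.B n) ℤ} (hf : K.qN n f = 0) : Aff f := by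
  have := K.aff_sub_sN_qN n f
  rwa [hf, map_zero, sub_zero] at this

/-- The boundary of the monoid ring. -/
def bdm (n : ℕ) : MvPolynomial (K.B (n + 1)) ℤ →ₗ[ℤ] MvPolynomial (K.B n) ℤ :=
  ∑ i ∈ Finset.range (n + 2), (-1 : ℤ) ^ i • (K.mD n i).toLinearMap

theorem bdm_apply (n : ℕ) (f : MvPolynomial (K.B (n + 1)) ℤ) :
    K.bdm n f = ∑ i ∈ Finset.range (n + 2), (-1 : ℤ) ^ i • K.mD n i f := by
  rw [bdm, LinearMap.sum_apply]
  rfl

theorem bdQ_qN (n : ℕ) (f : MvPolynomial (K.B (n + 1)) ℤ) :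
    K.bdQ n (K.qN (n + 1) f) = K.qN n (K.bdm n f) := by
  have : K.bdQ n ∘ₗ K.qN (n + 1) = K.qN n ∘ₗ K.bdm n := by
    refine (basisMonomials (K.B (n + 1)) ℤ).ext (fun m => ?_)
    rw [coe_basisMonomials]
    simp only [LinearMap.comp_apply]
    rw [qN_monomial, bdm_apply, map_sum]
    simp only [map_smul, mD_monomial, qN_monomial]
    by_cases h : ∀ x : K.K (n + 1), m ≠ K.ms (n + 1) x
    · have h2 := K.chN_of (n + 1) ⟨m, h⟩
      rw [h2, bdQ, Finsupp.linearCombination_single, one_smul]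
    · push Not at h
      obtain ⟨x, rfl⟩ := h
      rw [chN_ms, map_zero]
      symm
      refine Finset.sum_eq_zero (fun i hi => ?_)
      have hi' : i ≤ n + 1 := Nat.lt_succ_iff.mp (Finset.mem_range.mp hi)
      have h3 : K.dM n i (K.ms (n + 1) x) = K.ms n (K.d n i x) := by
        by_cases hx : x = K.pt (n + 1)
        · rw [hx, ms_pt, K.d_pt n i hi', ms_pt, map_zero]
        · rw [K.ms_of_ne ⟨x, hx⟩, dM, Finsupp.liftAddHom_apply_single, multiplesHom_apply,
            one_nsmul]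
      rw [h3, chN_ms, smul_zero]
  exact LinearMap.congr_fun this f

/-- The boundary of the symmetric algebra as a linear map. -/
def bds (n : ℕ) : MvPolynomial (K.B (n + 1)) ℤ →ₗ[ℤ] MvPolynomial (K.B n) ℤ :=
  ∑ i ∈ Finset.range (n + 2), (-1 : ℤ) ^ i • (symMap (K.dZ n i)).toLinearMap

theorem bds_apply (n : ℕ) (f : MvPolynomial (K.B (n + 1)) ℤ) :
    K.bds n f = ∑ i ∈ Finset.range (n + 2), (-1 : ℤ) ^ i • symMap (K.dZ n i) f := by
  rw [bds, LinearMap.sum_apply]
  rfl

theorem shUp_bdm (n : ℕ) (f : MvPolynomial (K.B (n + 1)) ℤ) :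
    shUp _ (K.bdm n f) = K.bds n (shUp _ f) := by
  rw [bdm_apply, bds_apply, map_sum]
  refine Finset.sum_congr rfl (fun i _ => ?_)
  rw [map_zsmul, shUp_mD]

theorem bdm_shDn (n : ℕ) (f : MvPolynomial (K.B (n + 1)) ℤ) :
    K.bdm n (shDn _ f) = shDn _ (K.bds n f) := by
  rw [bdm_apply, bds_apply, map_sum]
  refine Finset.sum_congr rfl (fun i _ => ?_)
  rw [map_zsmul, mD_shDn]

theorem homogeneousComponent_bds (n p : ℕ) (f : MvPolynomial (K.B (n + 1)) ℤ) :
    homogeneousComponent p (K.bds n f) = K.bds n (homogeneousComponent p f) := by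
  rw [bds_apply, bds_apply, map_sum]
  refine Finset.sum_congr rfl (fun i _ => ?_)
  rw [map_zsmul, homogeneousComponent_symMap]

/-- Cycles of the symmetric algebra. -/
def SCyc : ∀ k : ℕ, MvPolynomial (K.B k) ℤ → Prop
  | 0, _ => True
  | k + 1, f => K.bds k f = 0

/-- Homogeneous cycles of degree `p ≥ 2` bound after multiplication with `e`. -/
def SExp (k : ℕ) (e : ℤ) : Prop :=
  ∀ p, 2 ≤ p → ∀ f : MvPolynomial (K.B k) ℤ, f.IsHomogeneous p → K.SCyc k f →
    ∃ g, K.bds k g = e • f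

/-- Cycles of `Q`. -/
def QCyc : ∀ k : ℕ, (K.NL k →₀ ℤ) → Prop
  | 0, _ => True
  | k + 1, f => K.bdQ k f = 0

theorem scyc_comp (k : ℕ) (x : K.NL k →₀ ℤ) (hx : K.QCyc k x) (p : ℕ) (hp : 2 ≤ p) :
    K.SCyc k (homogeneousComponent p (shUp _ (K.sN k x))) := by
  cases k with
  | zero => trivial
  | succ k =>
    change K.bdQ k x = 0 at hx
    change K.bds k (homogeneousComponent p (shUp _ (K.sN (k + 1) x))) = 0
    rw [← homogeneousComponent_bds, ← shUp_bdm]
    refine Aff.homogeneousComponent (Aff.shUp (K.aff_of_qN k ?_)) hp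
    rw [← bdQ_qN, qN_sN, hx]

theorem exp_Q (k : ℕ) (e : ℤ) (he : K.SExp k e) (x : K.NL k →₀ ℤ) (hx : K.QCyc k x) :
    ∃ y, K.bdQ k y = e • x := by
  set g := shUp _ (K.sN k x) with hg
  have h1 : ∀ p, ∃ y, 2 ≤ p → K.bds k y = e • homogeneousComponent p g := by
    intro p
    by_cases hp : 2 ≤ p
    · obtain ⟨y, hy⟩ := he p hp _ (homogeneousComponent_isHomogeneous p g)
        (K.scyc_comp k x hx p hp)
      exact ⟨y, fun _ => hy⟩
    · exact ⟨0, fun h => absurd h hp⟩
  choose y hy using h1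
  set Y := ∑ p ∈ Finset.range (g.totalDegree + 1), if 2 ≤ p then y p else 0 with hY
  have h2 : Aff (K.bds k Y - e • g) := by
    have h3 : K.bds k Y - e • g = ∑ p ∈ Finset.range (g.totalDegree + 1),
        ((if 2 ≤ p then e • homogeneousComponent p g else 0) - e • homogeneousComponent p g) := by
      rw [Finset.sum_sub_distrib, ← Finset.smul_sum, sum_homogeneousComponent, hY, map_sum]
      congr 1
      refine Finset.sum_congr rfl (fun p _ => ?_)
      split_ifs with h
      · exact hy p h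
      · exact map_zero _
    rw [h3]
    refine aff_sum _ _ (fun p _ => ?_)
    split_ifs with h
    · rw [sub_self]; exact aff_zero
    · rw [zero_sub]
      refine Aff.neg (Aff.smul ?_ e)
      have : p = 0 ∨ p = 1 := by omega
      rcases this with rfl | rfl
      · exact aff_of_isHomogeneous_zero (homogeneousComponent_isHomogeneous 0 g)
      · exact aff_of_isHomogeneous_one (homogeneousComponent_isHomogeneous 1 g)
  refine ⟨K.qN (k + 1) (shDn _ Y), ?_⟩
  rw [bdQ_qN, bdm_shDn]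
  have h4 := K.qN_aff k h2.shDn
  rw [map_sub, map_sub, map_zsmul, hg, shDn_shUp, map_zsmul, qN_sN, sub_eq_zero] at h4
  exact h4

theorem boundedExp_of_sExp (h : ∀ k, ∃ e : ℕ, 0 < e ∧ K.SExp k e) : K.BoundedExp := by
  refine ⟨?_, fun n => ?_⟩
  · obtain ⟨e, he, h1⟩ := h 0
    exact ⟨e, he, fun x => K.exp_Q 0 e h1 x trivial⟩
  · obtain ⟨e, he, h1⟩ := h (n + 1)
    exact ⟨e, he, fun x hx => K.exp_Q (n + 1) e h1 x hx⟩

end PSS

end

end Pool.Agent.Lib.MP_904b2a_gt
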