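import Pool.Agent.Lib.MP_904b2a_gt.H49.Final
import Pool.Agent.Lib.MP_904b2a_gt.H44.SymTensor
import Pool.Agent.Lib.MP_904b2a_gt.H86.SymAcyclic

/-!
# MP_904b2a_gt, module ALG: `AlgStatement`
-/

namespace Pool.Agent.Lib.MP_904b2a_gt

/-- Module ALG: for odd `N`, the relative homology of `(ℕ[K], K)` of an algebraic `N`-sphere `K`
has finite exponent in every degree. -/
theorem algStatement : PSS.AlgStatement :=
  algStatement_of (fun _ hK _ hp k => H86.symP_hz hK hp k)
    (fun K L a b k h => PSS.HZ_symP_symP K L a b k h)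

end Pool.Agent.Lib.MP_904b2a_gt
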