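import Pool.Agent.Lib.MP_904b2a_gt.H49.Filt
import Pool.Agent.Lib.MP_904b2a_gt.H44.Bridge

/-!
# MP_904b2a_gt, module ALG: connectivity of the symmetric powers (A7) and the final assembly
-/

open scoped BigOperators TensorProduct

namespace Pool.Agent.Lib.MP_904b2a_gt

noncomputable section

open MvPolynomial

/-- The split sequence of a simplicial subset. -/
def PSS.splitSeq (K : PSS) (L : K.Sub) : SplitSeq L.toPSS K (K.quot L) where
  i n := PSS.cm L.toPSS K (fun x => x.1)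
  r n := PSS.cm K L.toPSS (PSS.subR K L n)
  j n := PSS.cm (K.quot L) K (PSS.quoS K L n)
  p n := PSS.cm K (K.quot L) (L.q n)
  r_i n := LinearMap.ext (fun x => (PSS.ses K L).ri n x)
  p_j n := LinearMap.ext (fun x => (PSS.ses K L).ps n x)
  r_j n := by
    have h1 : ∀ x, PSS.cm K L.toPSS (PSS.subR K L n) (PSS.cm L.toPSS K (fun x => x.1) x) = x :=
      fun x => (PSS.ses K L).ri n x
    have h2 : ∀ x, PSS.cm K (K.quot L) (L.q n) (PSS.cm (K.quot L) K (PSS.quoS K L n) x) = x :=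
      fun x => (PSS.ses K L).ps n x
    have h3 : ∀ x, PSS.cm L.toPSS K (fun x => x.1) (PSS.cm K L.toPSS (PSS.subR K L n) x) +
        PSS.cm (K.quot L) K (PSS.quoS K L n) (PSS.cm K (K.quot L) (L.q n) x) = x :=
      fun x => (PSS.ses K L).sum n x
    refine LinearMap.ext (fun x => ?_)
    have h4 := h3 (PSS.cm (K.quot L) K (PSS.quoS K L n) x)
    rw [h2, add_eq_right] at h4
    have h5 := h1 (PSS.cm K L.toPSS (PSS.subR K L n) (PSS.cm (K.quot L) K (PSS.quoS K L n) x))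
    rw [h4, map_zero] at h5
    rw [LinearMap.comp_apply, ← h5, LinearMap.zero_apply]
  p_i n := by
    have h1 : ∀ x, PSS.cm K L.toPSS (PSS.subR K L n) (PSS.cm L.toPSS K (fun x => x.1) x) = x :=
      fun x => (PSS.ses K L).ri n x
    have h2 : ∀ x, PSS.cm K (K.quot L) (L.q n) (PSS.cm (K.quot L) K (PSS.quoS K L n) x) = x :=
      fun x => (PSS.ses K L).ps n x
    have h3 : ∀ x, PSS.cm L.toPSS K (fun x => x.1) (PSS.cm K L.toPSS (PSS.subR K L n) x) +
        PSS.cm (K.quot L) K (PSS.quoS K L n) (PSS.cm K (K.quot L) (L.q n) x) = x :=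
      fun x => (PSS.ses K L).sum n x
    refine LinearMap.ext (fun x => ?_)
    have h4 := h3 (PSS.cm L.toPSS K (fun x => x.1) x)
    rw [h1, add_eq_left] at h4
    have h5 := h2 (PSS.cm K (K.quot L) (L.q n) (PSS.cm L.toPSS K (fun x => x.1) x))
    rw [h4, map_zero] at h5
    rw [LinearMap.comp_apply, ← h5, LinearMap.zero_apply]
  split n := LinearMap.ext (fun x => (PSS.ses K L).sum n x)
  d_i n k hk := LinearMap.ext (fun x => ((PSS.ses K L).i.comm n k x hk).symm)
  d_p n k hk := LinearMap.ext (fun x => ((PSS.ses K L).p.comm n k x hk).symm)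

/-- `H_k(Sym^p C(K)) = 0`. -/
def SHZ (K : PSS) (p k : ℕ) : Prop :=
  ∀ f : MvPolynomial (K.B k) ℤ, f.IsHomogeneous p → K.SCyc k f →
    ∃ g : MvPolynomial (K.B (k + 1)) ℤ, g.IsHomogeneous p ∧ K.bds k g = f

theorem symP_bd_val (K : PSS) (p n : ℕ) (g : SymP (K.B (n + 1)) p) :
    (show SymP (K.B n) p from (K.symP p).bd n g).1 = K.bds n g.1 := by
  have h1 := SM.bd_apply (K.symP p) n g
  have h2 : ∀ (s : Finset ℕ) (u : ℕ → SymP (K.B n) p), (∑ i ∈ s, u i).1 = ∑ i ∈ s, (u i).1 := by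
    intro s u
    exact map_sum (MvPolynomial.homogeneousSubmodule (K.B n) ℤ p).subtype u s
  have h3 : (∑ i ∈ Finset.range (n + 2), (-1 : ℤ) ^ i • symPAdd p (K.dZ n i) g).1 =
      K.bds n g.1 := by
    rw [h2, K.bds_apply]
    rfl
  exact (congrArg Subtype.val h1).trans h3

theorem symP_cyc (K : PSS) (p n : ℕ) (g : SymP (K.B n) p) :
    (K.symP p).Cyc n g ↔ K.SCyc n g.1 := by
  cases n with
  | zero => exact Iff.rfl
  | succ n =>
    constructor
    · intro h
      have h1 : (K.symP p).bd n g = 0 := h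
      have h2 := symP_bd_val K p n g
      rw [h1] at h2
      exact h2.symm
    · intro h
      have h2 := symP_bd_val K p n g
      have h3 : K.bds n g.1 = 0 := h
      rw [h3] at h2
      exact Subtype.ext h2

theorem symP_HZ (K : PSS) (p n : ℕ) : (K.symP p).HZ n ↔ SHZ K p n := by
  constructor
  · intro h f hf hc
    obtain ⟨g, hg⟩ := h (⟨f, hf⟩ : SymP (K.B n) p) ((symP_cyc K p n ⟨f, hf⟩).mpr hc)
    refine ⟨(show SymP (K.B (n + 1)) p from g).1, (show SymP (K.B (n + 1)) p from g).2, ?_⟩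
    rw [← symP_bd_val K p n g, hg]
  · intro h f hf
    obtain ⟨g, hg, hg'⟩ := h (show SymP (K.B n) p from f).1 (show SymP (K.B n) p from f).2
      ((symP_cyc K p n f).mp hf)
    refine ⟨(⟨g, hg⟩ : SymP (K.B (n + 1)) p), Subtype.ext ?_⟩
    rw [symP_bd_val K p n ⟨g, hg⟩]
    exact hg'

/-- A chain map induces a chain map of symmetric powers. -/
theorem bds_symMap {K K' : PSS} (n : ℕ) (f : (K.B (n + 1) →₀ ℤ) →ₗ[ℤ] (K'.B (n + 1) →₀ ℤ))
    (g : (K.B n →₀ ℤ) →ₗ[ℤ] (K'.B n →₀ ℤ))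
    (h : ∀ k, k ≤ n + 1 → K'.dZ n k ∘ₗ f = g ∘ₗ K.dZ n k) (x : MvPolynomial (K.B (n + 1)) ℤ) :
    K'.bds n (symMap f x) = symMap g (K.bds n x) := by
  rw [PSS.bds_apply, PSS.bds_apply, map_sum]
  refine Finset.sum_congr rfl (fun k hk => ?_)
  rw [map_zsmul, symMap_symMap, symMap_symMap, h k (by have := Finset.mem_range.mp hk; omega)]

theorem symMap_zero_of {B B' : Type} {f : MvPolynomial B ℤ} {a : ℕ} (hf : f.IsHomogeneous a)
    (ha : 1 ≤ a) : symMap (0 : (B →₀ ℤ) →ₗ[ℤ] (B' →₀ ℤ)) f = 0 := by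
  have h1 : symMap (0 : (B →₀ ℤ) →ₗ[ℤ] (B' →₀ ℤ)) = aeval (fun _ => 0) := by
    refine MvPolynomial.algHom_ext (fun b => ?_)
    simp
  rw [h1, aeval_zero', constantCoeff_eq, hf.coeff_eq_zero, map_zero]
  rw [map_zero]
  omega

namespace SplitSeq

variable {A P C : PSS} (S : SplitSeq A P C)

theorem symMap_p_m (n a b : ℕ) (ha : 1 ≤ a) (z : SymP (A.B n) a ⊗[ℤ] SymP (C.B n) b) :
    symMap (S.p n) (S.m n a b z) = 0 := by
  induction z using TensorProduct.induction_on with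
  | zero => rw [map_zero, map_zero]
  | tmul x y =>
    rw [m_tmul, map_mul, symMap_symMap, S.p_i, symMap_zero_of x.2 ha, zero_mul]
  | add z w hz hw => rw [map_add, map_add, hz, hw, add_zero]

theorem fil_zero {n p : ℕ} {x : MvPolynomial (P.B n) ℤ} (hx : x.IsHomogeneous p) :
    S.Fil n p 0 x := ⟨hx, fun a ha => absurd ha (Nat.not_lt_zero a)⟩

theorem fil_one {n p : ℕ} {x : MvPolynomial (P.B n) ℤ} (hx : x.IsHomogeneous p) :
    S.Fil n p 1 x ↔ symMap (S.p n) x = 0 := by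
  constructor
  · intro h
    rw [← S.sum_m_c n p hx, map_sum]
    refine Finset.sum_eq_zero (fun a _ => ?_)
    by_cases ha : a < 1
    · rw [h.2 a ha, map_zero, map_zero]
    · exact S.symMap_p_m n a (p - a) (by omega) _
  · intro h
    refine ⟨hx, fun a ha => ?_⟩
    obtain rfl : a = 0 := by omega
    have h1 := S.c_mul_eq n 0 (p - 0) ⟨1, isHomogeneous_one _ _⟩ x
    rw [h, map_zero, TensorProduct.tmul_zero, map_one, one_mul] at h1
    exact h1

theorem scyc_p {n : ℕ} {x : MvPolynomial (P.B n) ℤ} (hx : P.SCyc n x) :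
    C.SCyc n (symMap (S.p n) x) := by
  cases n with
  | zero => trivial
  | succ n =>
    change P.bds n x = 0 at hx
    change C.bds n _ = 0
    rw [bds_symMap n (S.p (n + 1)) (S.p n) (fun k hk => S.d_p n k hk), hx, map_zero]

/-- From `P` to `C`. -/
theorem q_lemma {p k : ℕ} (hP : SHZ P p k)
    (hF : ∀ k', k = k' + 1 → ∀ x, S.Fil k' p 1 x → P.SCyc k' x →
      ∃ y, S.Fil (k' + 1) p 1 y ∧ P.bds k' y = x) : SHZ C p k := by
  intro f hf hc
  have hx : (symMap (S.j k) f).IsHomogeneous p := symMap_isHomogeneous _ hf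
  have hpx : symMap (S.p k) (symMap (S.j k) f) = f := by
    rw [symMap_symMap, S.p_j, symMap_id, AlgHom.id_apply]
  have key : ∃ y : MvPolynomial (P.B k) ℤ, y.IsHomogeneous p ∧ symMap (S.p k) y = 0 ∧
      P.SCyc k (symMap (S.j k) f - y) := by
    cases k with
    | zero => exact ⟨0, isHomogeneous_zero _ _ _, map_zero _, trivial⟩
    | succ k =>
      have h1 : symMap (S.p k) (P.bds k (symMap (S.j (k + 1)) f)) = 0 := by
        rw [← bds_symMap k (S.p (k + 1)) (S.p k) (fun l hl => S.d_p k l hl), hpx]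
        exact hc
      obtain ⟨y, hy, hy'⟩ := hF k rfl _ ((S.fil_one (bds_isHomogeneous P hx)).mpr h1)
        (scyc_bds P k _)
      refine ⟨y, hy.1, (S.fil_one hy.1).mp hy, ?_⟩
      change P.bds k _ = 0
      rw [map_sub, hy', sub_self]
  obtain ⟨y, hy, hpy, hcy⟩ := key
  obtain ⟨g, hg, hg'⟩ := hP _ (hx.sub hy) hcy
  refine ⟨symMap (S.p (k + 1)) g, symMap_isHomogeneous _ hg, ?_⟩
  rw [bds_symMap k (S.p (k + 1)) (S.p k) (fun l hl => S.d_p k l hl), hg', map_sub, hpx, hpy,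
    sub_zero]

include S in
/-- The homology of `Sym^p P` vanishes if the homology of all graded pieces does. -/
theorem p_lemma {p k : ℕ} (h : ∀ l, l ≤ p → (GM A C l (p - l)).HZ k) : SHZ P p k := by
  intro f hf hc
  obtain ⟨y, hy, hy'⟩ := fil_exact (S := S) (p + 1) 0 (by omega) (fun l _ hl => h l hl) f
    (S.fil_zero hf) hc
  exact ⟨y, hy.1, hy'⟩

include S in
theorem q_lemma' {p k : ℕ} (hP : SHZ P p k)
    (h : ∀ k', k = k' + 1 → ∀ l, 1 ≤ l → l ≤ p → (GM A C l (p - l)).HZ k') : SHZ C p k := by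
  refine S.q_lemma hP (fun k' hk' x hx hc => ?_)
  cases p with
  | zero =>
    refine ⟨0, ⟨isHomogeneous_zero _ _ _, fun a _ => map_zero _⟩, ?_⟩
    rw [fil_top hx, map_zero]
  | succ p => exact fil_exact (S := S) (p + 1) 1 (by omega) (fun l hl hl' => h k' hk' l hl hl') x hx hc

end SplitSeq

/-- Input T1: symmetric powers of an acyclic complex. -/
def T1 : Prop := ∀ (K : PSS), K.Acyclic → ∀ p, 1 ≤ p → ∀ k, (K.symP p).HZ k

/-- Input T2: tensor products of symmetric powers. -/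
def T2 : Prop := ∀ (K L : PSS) (a b k : ℕ),
  ((∀ j, j ≤ k → (K.symP a).HZ j) ∨ (∀ j, j ≤ k → (L.symP b).HZ j)) →
    ((K.symP a).tensor (L.symP b)).HZ k

/-- The connectivity of high symmetric powers. -/
def Con (K : PSS) : Prop := ∀ q, ∃ p0, ∀ p, p0 ≤ p → ∀ k, k ≤ q → (K.symP p).HZ k

theorem Con.ofSub (h1 : T1) (h2 : T2) (K : PSS) (L : K.Sub) (hQ : (K.quot L).Acyclic)
    (hL : Con L.toPSS) : Con K := by
  intro q
  obtain ⟨p0, hp0⟩ := hL q
  refine ⟨p0, fun p hp k hk => (symP_HZ K p k).mpr ((K.splitSeq L).p_lemma (fun l hl => ?_))⟩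
  refine h2 _ _ _ _ _ ?_
  rcases Nat.lt_or_ge l p with h | h
  · exact Or.inr (fun j _ => h1 _ hQ (p - l) (by omega) j)
  · obtain rfl : l = p := by omega
    exact Or.inl (fun j hj => hp0 l hp j (by omega))

theorem Con.ofQuot (h1 : T1) (h2 : T2) (K : PSS) (L : K.Sub) (hL : L.toPSS.Acyclic)
    (hQ : Con (K.quot L)) : Con K := by
  intro q
  obtain ⟨p0, hp0⟩ := hQ q
  refine ⟨p0, fun p hp k hk => (symP_HZ K p k).mpr ((K.splitSeq L).p_lemma (fun l hl => ?_))⟩
  refine h2 _ _ _ _ _ ?_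
  rcases Nat.eq_zero_or_pos l with rfl | h
  · exact Or.inr (fun j hj => hp0 (p - 0) (by omega) j (by omega))
  · exact Or.inl (fun j _ => h1 _ hL l h j)

theorem Con.toQuot (h1 : T1) (h2 : T2) (K : PSS) (L : K.Sub) (hL : L.toPSS.Acyclic)
    (hK : Con K) : Con (K.quot L) := by
  intro q
  obtain ⟨p0, hp0⟩ := hK q
  refine ⟨p0, fun p hp k hk => (symP_HZ _ p k).mpr ((K.splitSeq L).q_lemma'
    ((symP_HZ K p k).mp (hp0 p hp k hk)) (fun k' _ l hl hl' => ?_))⟩
  exact h2 _ _ _ _ _ (Or.inl (fun j _ => h1 _ hL l hl j))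

theorem Con.susp (h1 : T1) (h2 : T2) (E : PSS) (L : E.Sub) (hE : E.Acyclic)
    (hL : Con L.toPSS) : Con (E.quot L) := by
  intro q
  induction q with
  | zero =>
    refine ⟨1, fun p hp k hk => (symP_HZ _ p k).mpr ((E.splitSeq L).q_lemma'
      ((symP_HZ E p k).mp (h1 E hE p hp k)) (fun k' hk' l hl hl' => ?_))⟩
    omega
  | succ q ih =>
    obtain ⟨pC, hC⟩ := ih
    obtain ⟨pA, hA⟩ := hL q
    refine ⟨pA + pC + 1, fun p hp k hk => (symP_HZ _ p k).mpr ((E.splitSeq L).q_lemma'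
      ((symP_HZ E p k).mp (h1 E hE p (by omega) k)) (fun k' hk' l hl hl' => ?_))⟩
    refine h2 _ _ _ _ _ ?_
    rcases Nat.lt_or_ge l pA with h | h
    · exact Or.inr (fun j hj => hC (p - l) (by omega) j (by omega))
    · exact Or.inl (fun j hj => hA l h j (by omega))

theorem Con.iso (K K' : PSS) (e : PSS.Iso K K') (hK : Con K) : Con K' := by
  intro q
  obtain ⟨p0, hp0⟩ := hK q
  refine ⟨p0, fun p hp k hk => (symP_HZ _ p k).mpr ?_⟩
  have h := (symP_HZ _ p k).mp (hp0 p hp k hk)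
  have hd : ∀ n i, i ≤ n + 1 → K'.dZ n i ∘ₗ PSS.cm K K' (e.e (n + 1)) =
      PSS.cm K K' (e.e n) ∘ₗ K.dZ n i := by
    intro n i hi
    refine LinearMap.ext (fun x => ?_)
    exact ((PSS.fm K K' (fun n => e.e n) e.map_pt e.map_d).comm n i x hi).symm
  have hd' : ∀ n i, i ≤ n + 1 → K.dZ n i ∘ₗ PSS.cm K' K (e.e (n + 1)).symm =
      PSS.cm K' K (e.e n).symm ∘ₗ K'.dZ n i := by
    intro n i hi
    refine LinearMap.ext (fun x => ?_)
    refine ((PSS.fm K' K (fun n => (e.e n).symm) (fun n => ?_) (fun n i x hi => ?_)).comm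
      n i x hi).symm
    · rw [Equiv.symm_apply_eq, e.map_pt]
    · rw [Equiv.symm_apply_eq, e.map_d n i _ hi, Equiv.apply_symm_apply]
  have he : ∀ n, PSS.cm K K' (e.e n) ∘ₗ PSS.cm K' K (e.e n).symm = LinearMap.id := by
    intro n
    refine LinearMap.ext (fun x => ?_)
    rw [LinearMap.comp_apply, PSS.cm_cm _ _ _ _ _ (e.map_pt n), PSS.cm_id]
    · rfl
    · exact fun y => Equiv.apply_symm_apply _ y
  intro f hf hc
  obtain ⟨g, hg, hg'⟩ := h (symMap (PSS.cm K' K (e.e k).symm) f) (symMap_isHomogeneous _ hf) (by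
    cases k with
    | zero => trivial
    | succ k =>
      change K.bds k _ = 0
      rw [bds_symMap k _ _ (hd' k)]
      have h3 : K'.bds k f = 0 := hc
      rw [h3, map_zero])
  refine ⟨symMap (PSS.cm K K' (e.e (k + 1))) g, symMap_isHomogeneous _ hg, ?_⟩
  rw [bds_symMap k _ _ (hd k), hg', symMap_symMap, he, symMap_id]
  rfl

end

end Pool.Agent.Lib.MP_904b2a_gt
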