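import Pool.Agent.Lib.MP_904b2a_gt.H49.Mono

/-!
# MP_904b2a_gt, module ALG, step A6: the exponent of the homology of symmetric powers
-/

open scoped BigOperators TensorProduct

namespace Pool.Agent.Lib.MP_904b2a_gt

noncomputable section

open MvPolynomial

/-- The swap of the two factors `A` of `A ⊗ (A ⊗ Y)`. -/
def swapT (A Y : Type) [AddCommGroup A] [AddCommGroup Y] :
    A ⊗[ℤ] (A ⊗[ℤ] Y) →+ A ⊗[ℤ] (A ⊗[ℤ] Y) :=
  (TensorProduct.leftComm ℤ A A Y).toLinearMap.toAddMonoidHom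

@[simp] theorem swapT_tmul (A Y : Type) [AddCommGroup A] [AddCommGroup Y] (a b : A) (y : Y) :
    swapT A Y (a ⊗ₜ[ℤ] (b ⊗ₜ[ℤ] y)) = b ⊗ₜ[ℤ] (a ⊗ₜ[ℤ] y) := rfl

/-- The swap on `X ⊗ (X ⊗ Y)`. -/
def SM.swp (X Y : SM) (q : ℕ) :
    (X.tensor (X.tensor Y)).T q →+ (X.tensor (X.tensor Y)).T q := swapT (X.T q) (Y.T q)

/-- The sign property `σ_N(K)` (step A5). -/
def SignP (N : ℕ) (K : PSS) : Prop :=
  ∀ (Y : SM) (q : ℕ) (z : (K.chain.tensor (K.chain.tensor Y)).T q),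
    (K.chain.tensor (K.chain.tensor Y)).Cyc q z →
      ∃ w, (K.chain.tensor (K.chain.tensor Y)).bd q w = K.chain.swp Y q z - (-1 : ℤ) ^ N • z

section Poly

variable {B B' : Type}

/-- The universal derivation `Sym C → Sym C ⊗ C`. -/
def derR (B : Type) : Derivation ℤ (MvPolynomial B ℤ) (MvPolynomial B ℤ ⊗[ℤ] (B →₀ ℤ)) :=
  mkDerivation ℤ (fun b => (1 : MvPolynomial B ℤ) ⊗ₜ[ℤ] (Finsupp.single b 1 : B →₀ ℤ))

/-- The universal derivation `Sym C → C ⊗ Sym C`. -/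
def D1 (B : Type) : MvPolynomial B ℤ →+ (B →₀ ℤ) ⊗[ℤ] MvPolynomial B ℤ :=
  (TensorProduct.comm ℤ (MvPolynomial B ℤ) (B →₀ ℤ)).toLinearMap.toAddMonoidHom.comp
    (derR B).toLinearMap.toAddMonoidHom

/-- Multiplication by `g` on `C ⊗ Sym C`. -/
def mulT (C : Type) [AddCommGroup C] (g : MvPolynomial B ℤ) :
    C ⊗[ℤ] MvPolynomial B ℤ →+ C ⊗[ℤ] MvPolynomial B ℤ :=
  tmap (AddMonoidHom.id C) (AddMonoidHom.mulLeft g)

@[simp] theorem mulT_tmul (C : Type) [AddCommGroup C] (g : MvPolynomial B ℤ) (c : C)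
    (f : MvPolynomial B ℤ) : mulT C g (c ⊗ₜ[ℤ] f) = c ⊗ₜ[ℤ] (g * f) := rfl

theorem mulT_smul (g : MvPolynomial B ℤ) (z : MvPolynomial B ℤ ⊗[ℤ] (B →₀ ℤ)) :
    TensorProduct.comm ℤ (MvPolynomial B ℤ) (B →₀ ℤ) (g • z) =
      mulT (B →₀ ℤ) g (TensorProduct.comm ℤ (MvPolynomial B ℤ) (B →₀ ℤ) z) := by
  induction z using TensorProduct.induction_on with
  | zero => simp
  | tmul x y => rfl
  | add z w hz hw => rw [smul_add, map_add, hz, hw, map_add, map_add]

theorem D1_C (a : ℤ) : D1 B (C a) = 0 := by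
  change TensorProduct.comm ℤ (MvPolynomial B ℤ) (B →₀ ℤ) (derR B (C a)) = 0
  rw [derivation_C, map_zero]

theorem D1_mul (f g : MvPolynomial B ℤ) :
    D1 B (f * g) = mulT _ f (D1 B g) + mulT _ g (D1 B f) := by
  change TensorProduct.comm ℤ (MvPolynomial B ℤ) (B →₀ ℤ) (derR B (f * g)) = _
  rw [Derivation.leibniz, map_add, mulT_smul, mulT_smul]
  rfl

theorem D1_X (b : B) : D1 B (X b) = (Finsupp.single b 1 : B →₀ ℤ) ⊗ₜ[ℤ] 1 := by
  change TensorProduct.comm ℤ (MvPolynomial B ℤ) (B →₀ ℤ) (derR B (X b)) = _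
  rw [derR, mkDerivation_X]
  rfl

theorem D1_lin (c : B →₀ ℤ) : D1 B (lin B c) = c ⊗ₜ[ℤ] 1 := by
  induction c using Finsupp.induction_linear with
  | zero => simp
  | add f g hf hg => rw [map_add, map_add, hf, hg, TensorProduct.add_tmul]
  | single b a =>
    have : (Finsupp.single b a : B →₀ ℤ) = a • Finsupp.single b 1 := by simp
    rw [this, map_smul, map_zsmul, lin_single, D1_X, TensorProduct.smul_tmul']

theorem D1_mul_lin (f : MvPolynomial B ℤ) (c : B →₀ ℤ) :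
    D1 B (f * lin B c) = c ⊗ₜ[ℤ] f + mulT _ (lin B c) (D1 B f) := by
  rw [D1_mul, D1_lin, mulT_tmul, mul_one]

theorem D1_mul_X (f : MvPolynomial B ℤ) (b : B) :
    D1 B (f * X b) = (Finsupp.single b 1 : B →₀ ℤ) ⊗ₜ[ℤ] f + mulT _ (X b) (D1 B f) := by
  rw [← lin_single, D1_mul_lin]

theorem D1_natural (φ : (B →₀ ℤ) →ₗ[ℤ] (B' →₀ ℤ)) (f : MvPolynomial B ℤ) :
    tmap φ.toAddMonoidHom (symAdd φ) (D1 B f) = D1 B' (symMap φ f) := by
  induction f using MvPolynomial.induction_on with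
  | C a => rw [D1_C, ← algebraMap_eq, AlgHom.commutes, algebraMap_eq, D1_C, map_zero]
  | add f g hf hg => rw [map_add, map_add, map_add, map_add, hf, hg]
  | mul_X f b hf =>
    have h1 : ∀ z : (B →₀ ℤ) ⊗[ℤ] MvPolynomial B ℤ,
        tmap φ.toAddMonoidHom (symAdd φ) (mulT _ (X b) z) =
          mulT _ (symMap φ (X b)) (tmap φ.toAddMonoidHom (symAdd φ) z) := by
      intro z
      refine DFunLike.congr_fun (f := (tmap φ.toAddMonoidHom (symAdd φ)).comp (mulT _ (X b)))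
        (g := (mulT _ (symMap φ (X b))).comp (tmap φ.toAddMonoidHom (symAdd φ)))
        (tadd_ext (fun x y => ?_)) z
      simp only [AddMonoidHom.comp_apply, mulT_tmul, tmap_tmul, symAdd_apply, map_mul]
    rw [D1_mul_X, map_add, h1, hf, map_mul, symMap_X, D1_mul_lin, tmap_tmul]
    rfl

/-- The map `s : Sym C → C ⊗ (C ⊗ Sym C)`. -/
def D2 (B : Type) : MvPolynomial B ℤ →+ (B →₀ ℤ) ⊗[ℤ] ((B →₀ ℤ) ⊗[ℤ] MvPolynomial B ℤ) :=
  (tmap (AddMonoidHom.id _) (D1 B)).comp (D1 B)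

theorem D2_natural (φ : (B →₀ ℤ) →ₗ[ℤ] (B' →₀ ℤ)) (f : MvPolynomial B ℤ) :
    tmap φ.toAddMonoidHom (tmap φ.toAddMonoidHom (symAdd φ)) (D2 B f) = D2 B' (symMap φ f) := by
  rw [D2, AddMonoidHom.comp_apply, D2, AddMonoidHom.comp_apply, ← D1_natural]
  generalize D1 B f = z
  refine DFunLike.congr_fun (f := (tmap φ.toAddMonoidHom (tmap φ.toAddMonoidHom (symAdd φ))).comp
      (tmap (AddMonoidHom.id _) (D1 B)))
    (g := (tmap (AddMonoidHom.id _) (D1 B')).comp (tmap φ.toAddMonoidHom (symAdd φ)))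
    (tadd_ext (fun x y => ?_)) z
  simp only [AddMonoidHom.comp_apply, tmap_tmul, AddMonoidHom.id_apply]
  rw [D1_natural]
  rfl

theorem D2_mul_X (f : MvPolynomial B ℤ) (b : B) :
    D2 B (f * X b) = (Finsupp.single b 1 : B →₀ ℤ) ⊗ₜ[ℤ] D1 B f +
      swapT _ _ ((Finsupp.single b 1 : B →₀ ℤ) ⊗ₜ[ℤ] D1 B f) +
      tmap (AddMonoidHom.id _) (mulT _ (X b)) (D2 B f) := by
  rw [D2, AddMonoidHom.comp_apply, AddMonoidHom.comp_apply, D1_mul_X, map_add, tmap_tmul,
    AddMonoidHom.id_apply, add_assoc]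
  congr 1
  generalize D1 B f = z
  refine DFunLike.congr_fun (f := (tmap (AddMonoidHom.id _) (D1 B)).comp (mulT _ (X b)))
    (g := (swapT _ _).comp ((TensorProduct.mk ℤ _ _ (Finsupp.single b 1)).toAddMonoidHom) +
      (tmap (AddMonoidHom.id _) (mulT _ (X b))).comp (tmap (AddMonoidHom.id _) (D1 B)))
    (tadd_ext (fun x y => ?_)) z
  simp only [AddMonoidHom.comp_apply, mulT_tmul, tmap_tmul, AddMonoidHom.id_apply,
    AddMonoidHom.add_apply]
  rw [mul_comm, D1_mul_X, TensorProduct.tmul_add]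
  rfl

theorem swapT_swapT (A Y : Type) [AddCommGroup A] [AddCommGroup Y] (z : A ⊗[ℤ] (A ⊗[ℤ] Y)) :
    swapT A Y (swapT A Y z) = z := by
  induction z using TensorProduct.induction_on with
  | zero => simp
  | tmul x y =>
    induction y using TensorProduct.induction_on with
    | zero => simp
    | tmul x y => simp
    | add z w hz hw => rw [TensorProduct.tmul_add, map_add, map_add, hz, hw]
  | add z w hz hw => rw [map_add, map_add, hz, hw]

theorem swapT_D2 (f : MvPolynomial B ℤ) : swapT _ _ (D2 B f) = D2 B f := by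
  induction f using MvPolynomial.induction_on with
  | C a => rw [D2, AddMonoidHom.comp_apply, D1_C, map_zero, map_zero]
  | add f g hf hg => rw [map_add, map_add, hf, hg]
  | mul_X f b hf =>
    have h1 : ∀ z : (B →₀ ℤ) ⊗[ℤ] ((B →₀ ℤ) ⊗[ℤ] MvPolynomial B ℤ),
        swapT _ _ (tmap (AddMonoidHom.id _) (mulT _ (X b)) z) =
          tmap (AddMonoidHom.id _) (mulT _ (X b)) (swapT _ _ z) := by
      intro z
      induction z using TensorProduct.induction_on with
      | zero => simp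
      | tmul x y =>
        induction y using TensorProduct.induction_on with
        | zero => simp
        | tmul x y => simp
        | add z w hz hw => rw [TensorProduct.tmul_add, map_add, map_add, map_add, map_add, hz, hw]
      | add z w hz hw => rw [map_add, map_add, map_add, map_add, hz, hw]
    rw [D2_mul_X, map_add, map_add, swapT_swapT, h1, hf]
    abel

/-- The multiplication `C ⊗ Sym C → Sym C`. -/
def m1 (B : Type) : (B →₀ ℤ) ⊗[ℤ] MvPolynomial B ℤ →+ MvPolynomial B ℤ :=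
  (TensorProduct.lift ((LinearMap.mul ℤ (MvPolynomial B ℤ)) ∘ₗ lin B)).toAddMonoidHom

@[simp] theorem m1_tmul (c : B →₀ ℤ) (f : MvPolynomial B ℤ) :
    m1 B (c ⊗ₜ[ℤ] f) = lin B c * f := rfl

/-- The multiplication `C ⊗ (C ⊗ Sym C) → Sym C`. -/
def m2 (B : Type) : (B →₀ ℤ) ⊗[ℤ] ((B →₀ ℤ) ⊗[ℤ] MvPolynomial B ℤ) →+ MvPolynomial B ℤ :=
  (m1 B).comp (tmap (AddMonoidHom.id _) (m1 B))

@[simp] theorem m2_tmul (c : B →₀ ℤ) (z : (B →₀ ℤ) ⊗[ℤ] MvPolynomial B ℤ) :
    m2 B (c ⊗ₜ[ℤ] z) = lin B c * m1 B z := rfl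

theorem m1_natural (φ : (B →₀ ℤ) →ₗ[ℤ] (B' →₀ ℤ)) (z : (B →₀ ℤ) ⊗[ℤ] MvPolynomial B ℤ) :
    m1 B' (tmap φ.toAddMonoidHom (symAdd φ) z) = symMap φ (m1 B z) := by
  induction z using TensorProduct.induction_on with
  | zero => simp
  | tmul x y =>
    rw [tmap_tmul, m1_tmul, m1_tmul, map_mul, symMap_lin]
    rfl
  | add z w hz hw => rw [map_add, map_add, map_add, map_add, hz, hw]

theorem m2_natural (φ : (B →₀ ℤ) →ₗ[ℤ] (B' →₀ ℤ))
    (z : (B →₀ ℤ) ⊗[ℤ] ((B →₀ ℤ) ⊗[ℤ] MvPolynomial B ℤ)) :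
    m2 B' (tmap φ.toAddMonoidHom (tmap φ.toAddMonoidHom (symAdd φ)) z) = symMap φ (m2 B z) := by
  induction z using TensorProduct.induction_on with
  | zero => simp
  | tmul x y =>
    rw [tmap_tmul, m2_tmul, m2_tmul, map_mul, symMap_lin, m1_natural]
    rfl
  | add z w hz hw => rw [map_add, map_add, map_add, map_add, hz, hw]

theorem m1_mulT (g : MvPolynomial B ℤ) (z : (B →₀ ℤ) ⊗[ℤ] MvPolynomial B ℤ) :
    m1 B (mulT _ g z) = g * m1 B z := by
  induction z using TensorProduct.induction_on with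
  | zero => simp
  | tmul x y => rw [mulT_tmul, m1_tmul, m1_tmul]; ring
  | add z w hz hw => rw [map_add, map_add, map_add, mul_add, hz, hw]

theorem m2_mulT (g : MvPolynomial B ℤ) (z : (B →₀ ℤ) ⊗[ℤ] ((B →₀ ℤ) ⊗[ℤ] MvPolynomial B ℤ)) :
    m2 B (tmap (AddMonoidHom.id _) (mulT _ g) z) = g * m2 B z := by
  induction z using TensorProduct.induction_on with
  | zero => simp
  | tmul x y => rw [tmap_tmul, m2_tmul, m2_tmul, m1_mulT, AddMonoidHom.id_apply]; ring
  | add z w hz hw => rw [map_add, map_add, map_add, mul_add, hz, hw]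

theorem m2_swapT (c : B →₀ ℤ) (z : (B →₀ ℤ) ⊗[ℤ] MvPolynomial B ℤ) :
    m2 B (swapT _ _ (c ⊗ₜ[ℤ] z)) = lin B c * m1 B z := by
  induction z using TensorProduct.induction_on with
  | zero => simp
  | tmul x y => rw [swapT_tmul, m2_tmul, m1_tmul, m1_tmul]; ring
  | add z w hz hw => rw [TensorProduct.tmul_add, map_add, map_add, map_add, mul_add, hz, hw]

theorem euler_monomial (n : ℕ) : ∀ m : B →₀ ℕ, m.degree = n →
    m1 B (D1 B (monomial m 1)) = (n : ℤ) • monomial m 1 ∧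
    m2 B (D2 B (monomial m 1)) = ((n : ℤ) * (n - 1)) • monomial m 1 := by
  induction n with
  | zero =>
    intro m hm
    rw [Finsupp.degree_eq_zero_iff] at hm
    subst hm
    change m1 B (D1 B (C 1)) = _ ∧ m2 B (D2 B (C 1)) = _
    rw [D2, AddMonoidHom.comp_apply, D1_C]
    simp
  | succ n ih =>
    intro m hm
    have h0 : m ≠ 0 := by
      rintro rfl
      simp at hm
    obtain ⟨b, hb⟩ := Finsupp.ne_iff.mp h0
    have hb' : 1 ≤ m b := Nat.one_le_iff_ne_zero.mpr hb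
    obtain ⟨m', rfl⟩ : ∃ m', m = m' + Finsupp.single b 1 := by
      refine ⟨m - Finsupp.single b 1, ?_⟩
      rw [tsub_add_cancel_of_le]
      rwa [Finsupp.single_le_iff]
    have hm' : m'.degree = n := by
      rw [map_add, Finsupp.degree_single] at hm
      omega
    obtain ⟨h1, h2⟩ := ih m' hm'
    have h3 : (monomial (m' + Finsupp.single b 1) (1 : ℤ) : MvPolynomial B ℤ) =
        monomial m' 1 * X b := by
      rw [X, monomial_mul, one_mul]
    rw [h3, D1_mul_X, D2_mul_X, map_add, map_add, map_add, m2_mulT, m1_mulT, m2_swapT, m2_tmul,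
      m1_tmul, lin_single, h1, h2]
    constructor
    · rw [mul_smul_comm, mul_comm, Nat.cast_succ, add_smul, one_smul, add_comm]
    · rw [mul_smul_comm, mul_smul_comm, mul_comm (X b), ← add_smul, ← add_smul]
      congr 1
      push_cast
      ring

theorem m2_D2 {f : MvPolynomial B ℤ} {p : ℕ} (hf : f.IsHomogeneous p) :
    m2 B (D2 B f) = ((p : ℤ) * (p - 1)) • f := by
  conv_lhs => rw [f.as_sum]
  conv_rhs => rw [f.as_sum]
  rw [map_sum, map_sum, Finset.smul_sum]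
  refine Finset.sum_congr rfl (fun m hm => ?_)
  have h1 : (monomial m (coeff m f) : MvPolynomial B ℤ) = coeff m f • monomial m 1 := by
    rw [smul_monomial, smul_eq_mul, mul_one]
  have h2 : m.degree = p := by
    by_contra h
    exact (mem_support_iff.mp hm) (hf.coeff_eq_zero h)
  rw [h1, map_zsmul, map_zsmul, (euler_monomial p m h2).2, smul_comm]

end Poly

namespace PSS

variable (K : PSS)

theorem sym_bd (n : ℕ) (f : MvPolynomial (K.B (n + 1)) ℤ) :
    K.sym.bd n f = K.bds n f :=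
  (SM.bd_apply K.sym n f).trans (K.bds_apply n f).symm

theorem sym_cyc (k : ℕ) (f : MvPolynomial (K.B k) ℤ) : K.sym.Cyc k f ↔ K.SCyc k f := by
  cases k with
  | zero => exact Iff.rfl
  | succ k =>
    exact ⟨fun h => (K.sym_bd k f).symm.trans h, fun h => (K.sym_bd k f).trans h⟩

/-- The map `s`. -/
def symD2 (n : ℕ) : K.sym.T n →+ (K.chain.tensor (K.chain.tensor K.sym)).T n := D2 (K.B n)

/-- The map `a`. -/
def symM2 (n : ℕ) : (K.chain.tensor (K.chain.tensor K.sym)).T n →+ K.sym.T n := m2 (K.B n)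

theorem symD2_isMap : SM.IsMap K.symD2 := fun n i x _ => (D2_natural (K.dZ n i) x).symm

theorem symM2_isMap : SM.IsMap K.symM2 := fun n i x _ => m2_natural (K.dZ n i) x

/-- Step A6. -/
theorem expo {N : ℕ} (hN : Odd N) (hS : SignP N K) (p k : ℕ) (f : MvPolynomial (K.B k) ℤ)
    (hf : f.IsHomogeneous p) (hc : K.SCyc k f) :
    ∃ g, K.bds k g = (2 * ((p : ℤ) * (p - 1))) • f := by
  obtain ⟨w, hw⟩ := hS K.sym k (K.symD2 k f)
    (K.symD2_isMap.cyc k f ((K.sym_cyc k f).mpr hc))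
  refine ⟨K.symM2 (k + 1) w, ?_⟩
  have h1 : K.symM2 k ((K.chain.tensor (K.chain.tensor K.sym)).bd k w) =
      K.sym.bd k (K.symM2 (k + 1) w) := K.symM2_isMap.bd k w
  have h2 : K.chain.swp K.sym k (K.symD2 k f) = K.symD2 k f := swapT_D2 f
  have h3 : K.symM2 k (K.symD2 k f) = ((p : ℤ) * (p - 1)) • f := m2_D2 hf
  rw [hw, h2, hN.neg_one_pow, neg_one_zsmul, sub_neg_eq_add, map_add, h3] at h1
  have h4 : ∀ (g : MvPolynomial (K.B k) ℤ) (c : ℤ), c • g + c • g = (2 * c) • g := by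
    intro g c
    rw [two_mul, add_smul]
  exact (K.sym_bd k _).symm.trans (h1.symm.trans (h4 f _))

end PSS

end

end Pool.Agent.Lib.MP_904b2a_gt
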