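import Pool.Agent.Lib.MP_904b2a_gt.H49.Split

/-!
# MP_904b2a_gt, module ALG, step A7 (second half): homology of the filtration
-/

open scoped BigOperators TensorProduct

namespace Pool.Agent.Lib.MP_904b2a_gt

noncomputable section

open MvPolynomial

namespace SplitSeq

variable {A P C : PSS} (S : SplitSeq A P C)

/-- The bigraded part `Sym^a A ⊗ Sym^b C` as a simplicial module. -/
def GM (A C : PSS) (a b : ℕ) : SM := (A.symP a).tensor (C.symP b)

/-- The boundary of `Sym^a A ⊗ Sym^b C`. -/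
def gbd (A C : PSS) (n a b : ℕ) : SymP (A.B (n + 1)) a ⊗[ℤ] SymP (C.B (n + 1)) b →+
    SymP (A.B n) a ⊗[ℤ] SymP (C.B n) b := (GM A C a b).bd n

theorem gbd_apply (n a b : ℕ) (z : SymP (A.B (n + 1)) a ⊗[ℤ] SymP (C.B (n + 1)) b) :
    gbd A C n a b z = ∑ k ∈ Finset.range (n + 2),
      (-1 : ℤ) ^ k • tmap (symPAdd a (A.dZ n k)) (symPAdd b (C.dZ n k)) z :=
  SM.bd_apply (GM A C a b) n z

theorem c_face_lt (n a b a' b' k : ℕ) (hk : k ≤ n + 1) (h : a' < a)
    (z : SymP (A.B (n + 1)) a ⊗[ℤ] SymP (C.B (n + 1)) b) :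
    S.c n a' b' (symMap (P.dZ n k) (S.m (n + 1) a b z)) = 0 := by
  induction z using TensorProduct.induction_on with
  | zero => rw [map_zero, map_zero, map_zero]
  | tmul x y =>
    rw [m_tmul, map_mul, symMap_symMap, S.d_i n k hk, ← symMap_symMap]
    exact S.c_mul_lt n a' b' a h (symPAdd a (A.dZ n k) x) _
  | add z w hz hw => rw [map_add, map_add, map_add, hz, hw, add_zero]

theorem c_face_eq (n a b k : ℕ) (hk : k ≤ n + 1)
    (z : SymP (A.B (n + 1)) a ⊗[ℤ] SymP (C.B (n + 1)) b) :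
    S.c n a b (symMap (P.dZ n k) (S.m (n + 1) a b z)) =
      tmap (symPAdd a (A.dZ n k)) (symPAdd b (C.dZ n k)) z := by
  induction z using TensorProduct.induction_on with
  | zero => simp only [map_zero]
  | tmul x y =>
    rw [m_tmul, map_mul, symMap_symMap, S.d_i n k hk, ← symMap_symMap, tmap_tmul]
    refine (S.c_mul_eq n a b (symPAdd a (A.dZ n k) x) _).trans ?_
    congr 1
    refine Subtype.ext ?_
    rw [symMap_symMap, symMap_symMap, ← S.d_p n k hk, LinearMap.comp_assoc, S.p_j,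
      LinearMap.comp_id]
    exact homogeneousComponent_eq_self (symMap_isHomogeneous _ y.2)
  | add z w hz hw => simp only [map_add, hz, hw]

theorem c_bds_m_lt (n a b a' b' : ℕ) (h : a' < a)
    (z : SymP (A.B (n + 1)) a ⊗[ℤ] SymP (C.B (n + 1)) b) :
    S.c n a' b' (P.bds n (S.m (n + 1) a b z)) = 0 := by
  rw [PSS.bds_apply, map_sum]
  refine Finset.sum_eq_zero (fun k hk => ?_)
  rw [map_zsmul, S.c_face_lt n a b a' b' k (by have := Finset.mem_range.mp hk; omega) h,
    smul_zero]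

theorem c_bds_m_eq (n a b : ℕ)
    (z : SymP (A.B (n + 1)) a ⊗[ℤ] SymP (C.B (n + 1)) b) :
    S.c n a b (P.bds n (S.m (n + 1) a b z)) = gbd A C n a b z := by
  rw [PSS.bds_apply, map_sum, gbd_apply]
  refine Finset.sum_congr rfl (fun k hk => ?_)
  rw [map_zsmul, S.c_face_eq n a b k (by have := Finset.mem_range.mp hk; omega)]

/-- The elements of `Sym^p P` of `A`-degree at least `i`. -/
def Fil (n p i : ℕ) (x : MvPolynomial (P.B n) ℤ) : Prop :=
  x.IsHomogeneous p ∧ ∀ a < i, S.c n a (p - a) x = 0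

variable {S}

theorem Fil.add {n p i : ℕ} {x y : MvPolynomial (P.B n) ℤ} (hx : S.Fil n p i x)
    (hy : S.Fil n p i y) : S.Fil n p i (x + y) :=
  ⟨hx.1.add hy.1, fun a ha => by rw [map_add, hx.2 a ha, hy.2 a ha, add_zero]⟩

theorem Fil.sub {n p i : ℕ} {x y : MvPolynomial (P.B n) ℤ} (hx : S.Fil n p i x)
    (hy : S.Fil n p i y) : S.Fil n p i (x - y) :=
  ⟨hx.1.sub hy.1, fun a ha => by rw [map_sub, hx.2 a ha, hy.2 a ha, sub_zero]⟩

theorem Fil.mono {n p i i' : ℕ} {x : MvPolynomial (P.B n) ℤ} (hx : S.Fil n p i x)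
    (h : i' ≤ i) : S.Fil n p i' x := ⟨hx.1, fun a ha => hx.2 a (by omega)⟩

theorem fil_top {n p : ℕ} {x : MvPolynomial (P.B n) ℤ} (hx : S.Fil n p (p + 1) x) : x = 0 := by
  rw [← S.sum_m_c n p hx.1]
  refine Finset.sum_eq_zero (fun a ha => ?_)
  rw [hx.2 a (Finset.mem_range.mp ha), map_zero]

theorem bds_isHomogeneous (K : PSS) {n p : ℕ} {x : MvPolynomial (K.B (n + 1)) ℤ}
    (hx : x.IsHomogeneous p) : (K.bds n x).IsHomogeneous p := by
  have h : K.bds n x ∈ homogeneousSubmodule (K.B n) ℤ p := by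
    rw [PSS.bds_apply]
    refine Submodule.sum_mem _ (fun k _ => ?_)
    exact Submodule.smul_mem _ _ (symMap_isHomogeneous (K.dZ n k) hx)
  exact h

theorem c_bds_lt {n p i a : ℕ} {x : MvPolynomial (P.B (n + 1)) ℤ} (hx : S.Fil (n + 1) p i x)
    (ha : a < i) : S.c n a (p - a) (P.bds n x) = 0 := by
  rw [← S.sum_m_c (n + 1) p hx.1, map_sum, map_sum]
  refine Finset.sum_eq_zero (fun l _ => ?_)
  by_cases hl : l < i
  · rw [hx.2 l hl, map_zero, map_zero, map_zero]
  · exact S.c_bds_m_lt n l (p - l) a (p - a) (by omega) _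

theorem c_bds_eq {n p i : ℕ} (hi : i ≤ p) {x : MvPolynomial (P.B (n + 1)) ℤ}
    (hx : S.Fil (n + 1) p i x) :
    S.c n i (p - i) (P.bds n x) = gbd A C n i (p - i) (S.c (n + 1) i (p - i) x) := by
  conv_lhs => rw [← S.sum_m_c (n + 1) p hx.1, map_sum, map_sum]
  rw [Finset.sum_eq_single_of_mem i (by rw [Finset.mem_range]; omega)]
  · exact S.c_bds_m_eq n i (p - i) _
  · intro l _ hl
    by_cases hl' : l < i
    · rw [hx.2 l hl', map_zero, map_zero, map_zero]
    · exact S.c_bds_m_lt n l (p - l) i (p - i) (by omega) _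

theorem Fil.bds {n p i : ℕ} {x : MvPolynomial (P.B (n + 1)) ℤ} (hx : S.Fil (n + 1) p i x) :
    S.Fil n p i (P.bds n x) :=
  ⟨bds_isHomogeneous P hx.1, fun _ ha => c_bds_lt hx ha⟩

theorem fil_m {n p i : ℕ} (hi : i ≤ p) (z : SymP (A.B n) i ⊗[ℤ] SymP (C.B n) (p - i)) :
    S.Fil n p i (S.m n i (p - i) z) := by
  refine ⟨?_, fun a ha => S.c_m_lt n a (p - a) i (p - i) ha z⟩
  have := S.m_isHomogeneous n i (p - i) z
  rwa [Nat.add_sub_cancel' hi] at this

/-- Elements which are boundaries modulo the next step of the filtration. -/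
theorem gr_exact {n p i : ℕ} (hi : i ≤ p) (hH : (GM A C i (p - i)).HZ n)
    {x : MvPolynomial (P.B n) ℤ} (hx : S.Fil n p i x)
    (hc : P.SCyc n x) :
    ∃ y, S.Fil (n + 1) p i y ∧ S.Fil n p (i + 1) (x - P.bds n y) := by
  have h1 : (GM A C i (p - i)).Cyc n (S.c n i (p - i) x) := by
    cases n with
    | zero => trivial
    | succ n =>
      have h2 := c_bds_eq hi hx
      have h3 : P.bds n x = 0 := hc
      rw [h3, map_zero] at h2
      exact h2.symm
  obtain ⟨z, hz⟩ := hH _ h1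
  have hz' : gbd A C n i (p - i) z = S.c n i (p - i) x := hz
  have hy : S.Fil (n + 1) p i (S.m (n + 1) i (p - i) z) := fil_m hi z
  refine ⟨_, hy, ?_⟩
  have hxy := hx.sub hy.bds
  refine ⟨hxy.1, fun a ha => ?_⟩
  rcases Nat.lt_succ_iff_lt_or_eq.mp ha with h | rfl
  · exact hxy.2 a h
  · rw [map_sub, c_bds_eq hi hy, S.c_m_eq, hz', sub_self]

theorem scyc_sub {K : PSS} {n : ℕ} {x y : MvPolynomial (K.B n) ℤ} (hx : K.SCyc n x)
    (hy : K.SCyc n y) : K.SCyc n (x - y) := by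
  cases n with
  | zero => trivial
  | succ n =>
    change K.bds n x = 0 at hx
    change K.bds n y = 0 at hy
    change K.bds n (x - y) = 0
    rw [map_sub, hx, hy, sub_zero]

theorem scyc_bds (K : PSS) (n : ℕ) (x : MvPolynomial (K.B (n + 1)) ℤ) :
    K.SCyc n (K.bds n x) := by
  have := K.sym.cyc_bd n x
  rw [← K.sym_cyc]
  have h : K.sym.bd n x = K.bds n x := K.sym_bd n x
  exact h ▸ this

/-- The homology of `F_i` vanishes if the homology of all graded pieces does. -/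
theorem fil_exact {n p : ℕ} (t : ℕ) : ∀ i, i + t = p + 1 →
    (∀ l, i ≤ l → l ≤ p → (GM A C l (p - l)).HZ n) →
    ∀ x : MvPolynomial (P.B n) ℤ, S.Fil n p i x → P.SCyc n x →
      ∃ y, S.Fil (n + 1) p i y ∧ P.bds n y = x := by
  induction t with
  | zero =>
    intro i hi _ x hx _
    have : i = p + 1 := by omega
    subst this
    refine ⟨0, ⟨isHomogeneous_zero _ _ _, fun a _ => map_zero _⟩, ?_⟩
    rw [fil_top hx, map_zero]
  | succ t ih =>
    intro i hi hH x hx hc
    obtain ⟨y, hy, hxy⟩ := gr_exact (by omega) (hH i le_rfl (by omega)) hx hc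
    obtain ⟨y', hy', hyy⟩ := ih (i + 1) (by omega) (fun l hl hl' => hH l (by omega) hl') _ hxy
      (scyc_sub hc (scyc_bds P n y))
    refine ⟨y + y', hy.add (hy'.mono (by omega)), ?_⟩
    rw [map_add, hyy]
    abel

end SplitSeq

end

end Pool.Agent.Lib.MP_904b2a_gt
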