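import Pool.Agent.Lib.MP_904b2a_gt.H49.Conn

/-!
# MP_904b2a_gt, module ALG: the first suspension and the assembly of `AlgStatement`
-/

open scoped BigOperators TensorProduct

namespace Pool.Agent.Lib.MP_904b2a_gt

noncomputable section

open MvPolynomial

theorem X_dvd_of_homogeneous {B : Type} (b : B) (hb : ∀ b' : B, b' = b) {f : MvPolynomial B ℤ}
    {a : ℕ} (hf : f.IsHomogeneous a) (ha : 1 ≤ a) : X b ∣ f := by
  rw [f.as_sum]
  refine Finset.dvd_sum (fun m hm => ?_)
  rw [X_dvd_monomial]
  right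
  intro h0
  have hm0 : m = 0 := by
    ext b'
    rw [hb b', h0]
    rfl
  have := hf.coeff_eq_zero (d := m) (by rw [hm0, map_zero]; omega)
  exact (mem_support_iff.mp hm) this

theorem Con.one (h1 : T1) (E : PSS) (L : E.Sub) (hE : E.Acyclic) (hL : L.toPSS.IsS0) :
    Con (E.quot L) := by
  set A := L.toPSS with hA
  set S := E.splitSeq L with hS
  have hex : ∀ n, ∃ b : A.B n, ∀ b' : A.B n, b' = b := by
    intro n
    obtain ⟨t, ht, ht'⟩ := hL.1 n
    exact ⟨⟨t, ht⟩, fun b' => Subtype.ext (ht' b'.1 b'.2)⟩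
  choose b hb using hex
  set v : ∀ n, MvPolynomial (E.B n) ℤ := fun n => symMap (S.i n) (X (b n)) with hv
  have hvd : ∀ n k, k ≤ n + 1 → symMap (E.dZ n k) (v (n + 1)) = v n := by
    intro n k hk
    have h3 : A.dZ n k (Finsupp.single (b (n + 1)) 1) = Finsupp.single (b n) 1 := by
      rw [A.dZ_eq, A.chMap_single]
      have h4 := hL.2 n k (b (n + 1)).1 hk (b (n + 1)).2
      have h5 := A.ch_of_ne ⟨_, h4⟩
      rw [h5, hb n ⟨_, h4⟩]
    rw [hv]
    simp only
    rw [symMap_symMap, S.d_i n k hk, ← symMap_symMap, symMap_X (A.dZ n k), h3, lin_single]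
  have hv0 : ∀ n, v n ≠ 0 := by
    intro n h0
    have h2 : symMap (S.r n) (v n) = X (b n) := by
      rw [hv]
      simp only
      rw [symMap_symMap, S.r_i, symMap_id]
      rfl
    rw [h0, map_zero] at h2
    exact X_ne_zero (b n) h2.symm
  have hvh : ∀ n, (v n).IsHomogeneous 1 := fun n =>
    symMap_isHomogeneous _ (isHomogeneous_X ℤ (b n))
  have hpv : ∀ n, symMap (S.p n) (v n) = 0 := by
    intro n
    rw [hv]
    simp only
    rw [symMap_symMap, S.p_i, symMap_zero_of (isHomogeneous_X ℤ (b n)) le_rfl]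
  have hdiv : ∀ n p (x : MvPolynomial (E.B n) ℤ), S.Fil n (p + 1) 1 x →
      ∃ g : MvPolynomial (E.B n) ℤ, g.IsHomogeneous p ∧ x = v n * g := by
    intro n p x hx
    have h2 : v n ∣ x := by
      rw [← S.sum_m_c n (p + 1) hx.1]
      refine Finset.dvd_sum (fun a _ => ?_)
      by_cases ha : a < 1
      · rw [hx.2 a ha, map_zero]
        exact dvd_zero _
      · have h3 : ∀ z : SymP (A.B n) a ⊗[ℤ] SymP ((E.quot L).B n) (p + 1 - a),
            v n ∣ S.m n a (p + 1 - a) z := by
          intro z
          induction z using TensorProduct.induction_on with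
          | zero => rw [map_zero]; exact dvd_zero _
          | tmul y w =>
            rw [S.m_tmul]
            exact Dvd.dvd.mul_right (map_dvd (symMap (S.i n))
              (X_dvd_of_homogeneous (b n) (hb n) y.2 (by omega))) _
          | add z w hz hw => rw [map_add]; exact dvd_add hz hw
        exact h3 _
    obtain ⟨g, hg⟩ := h2
    refine ⟨homogeneousComponent p g, homogeneousComponent_isHomogeneous p g, ?_⟩
    have h3 : homogeneousComponent (p + 1) (v n * g) = v n * homogeneousComponent p g := by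
      conv_lhs => rw [← sum_homogeneousComponent g, Finset.mul_sum, map_sum]
      have h4 : ∀ i, homogeneousComponent (p + 1) (v n * homogeneousComponent i g) =
          if i = p then v n * homogeneousComponent p g else 0 := by
        intro i
        by_cases hi : i = p
        · subst hi
          rw [if_pos rfl]
          refine homogeneousComponent_eq_self ?_
          rw [add_comm]
          exact (hvh n).mul (homogeneousComponent_isHomogeneous i g)
        · rw [if_neg hi]
          exact hc_mul_ne (hvh n) (homogeneousComponent_isHomogeneous i g) (by omega)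
      rw [Finset.sum_congr rfl (fun i _ => h4 i), Finset.sum_ite_eq' _ p]
      split_ifs with h
      · rfl
      · rw [Finset.mem_range, not_lt] at h
        rw [homogeneousComponent_eq_zero _ _ (by omega), mul_zero]
    rw [← h3, ← hg, homogeneousComponent_eq_self hx.1]
  have hbd : ∀ n (g : MvPolynomial (E.B (n + 1)) ℤ), E.bds n (v (n + 1) * g) =
      v n * E.bds n g := by
    intro n g
    rw [E.bds_apply, E.bds_apply, Finset.mul_sum]
    refine Finset.sum_congr rfl (fun k hk => ?_)
    rw [map_mul, hvd n k (by have := Finset.mem_range.mp hk; omega), mul_smul_comm]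
  intro q
  refine ⟨2, fun p hp k _ => (symP_HZ _ p k).mpr (S.q_lemma
    ((symP_HZ E p k).mp (h1 E hE p (by omega) k)) (fun k' _ x hx hc => ?_))⟩
  obtain ⟨p, rfl⟩ : ∃ p', p = p' + 1 := ⟨p - 1, by omega⟩
  obtain ⟨g, hg, rfl⟩ := hdiv k' p x hx
  have hgc : E.SCyc k' g := by
    cases k' with
    | zero => trivial
    | succ n =>
      have h2 : E.bds n (v (n + 1) * g) = 0 := hc
      rw [hbd] at h2
      exact (mul_eq_zero.mp h2).resolve_left (hv0 n)
  obtain ⟨y, hy, hy'⟩ := (symP_HZ E p k').mp (h1 E hE p (by omega) k') g hg hgc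
  have hvy : (v (k' + 1) * y).IsHomogeneous (p + 1) := by
    rw [add_comm p 1]
    exact (hvh _).mul hy
  refine ⟨v (k' + 1) * y, (S.fil_one hvy).mpr ?_, ?_⟩
  · rw [map_mul, hpv, zero_mul]
  · rw [hbd, hy']

theorem con_of_algSphere (h1 : T1) (h2 : T2) {N : ℕ} {K : PSS} (h : PSS.AlgSphere N K) :
    Con K := by
  induction h with
  | one E L hE hL => exact Con.one h1 E L hE hL
  | susp E L hE _ ih => exact Con.susp h1 h2 E L hE ih
  | ofSub K L hQ _ ih => exact Con.ofSub h1 h2 K L hQ ih
  | ofQuot K L hL _ ih => exact Con.ofQuot h1 h2 K L hL ih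
  | toQuot K L hL _ ih => exact Con.toQuot h1 h2 K L hL ih
  | iso K K' e _ ih => exact Con.iso K K' e ih

theorem signP_of_algSphere {N : ℕ} {K : PSS} (h : PSS.AlgSphere N K) : SignP N K :=
  fun Y q z hz => PSS.sgn_chain h Y q z hz

theorem algStatement_of (h1 : T1) (h2 : T2) : PSS.AlgStatement := by
  intro N K h hN
  have hS := signP_of_algSphere h
  have hC := con_of_algSphere h1 h2 h
  refine K.boundedExp_of_sExp (fun k => ?_)
  obtain ⟨p0, hp0⟩ := hC k
  refine ⟨∏ p ∈ Finset.Ico 2 (p0 + 2), 2 * (p * (p - 1)), ?_, ?_⟩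
  · refine Finset.prod_pos (fun p hp => ?_)
    have := (Finset.mem_Ico.mp hp).1
    have h3 : 0 < p - 1 := by omega
    positivity
  · intro p hp f hf hc
    by_cases h3 : p < p0
    · obtain ⟨g, hg⟩ := K.expo hN hS p k f hf hc
      have h4 : p ∈ Finset.Ico 2 (p0 + 2) := Finset.mem_Ico.mpr ⟨hp, by omega⟩
      obtain ⟨t, ht⟩ := Finset.dvd_prod_of_mem (fun p => 2 * (p * (p - 1))) h4
      refine ⟨(t : ℤ) • g, ?_⟩
      rw [map_zsmul, hg, ht, smul_smul]
      congr 1
      push_cast [Nat.cast_sub (show 1 ≤ p by omega)]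
      ring
    · obtain ⟨g, _, hg⟩ := (symP_HZ K p k).mp (hp0 p (by omega) k le_rfl) f hf hc
      exact ⟨_, by rw [map_zsmul, hg]⟩

end

end Pool.Agent.Lib.MP_904b2a_gt
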