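import Pool.Agent.Lib.MP_904b2a_gt.H49.Expo

/-!
# MP_904b2a_gt, module ALG, step A7 (first half): the filtration of `Sym^p P` for a levelwise split
exact sequence `0 → A → P → C → 0` of reduced chains
-/

open scoped BigOperators TensorProduct

namespace Pool.Agent.Lib.MP_904b2a_gt

noncomputable section

open MvPolynomial

section Homog

variable {B B' : Type}

/-- The projection onto the homogeneous part of degree `p`. -/
def symProj (B : Type) (p : ℕ) : MvPolynomial B ℤ →+ SymP B p where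
  toFun f := ⟨homogeneousComponent p f, homogeneousComponent_isHomogeneous p f⟩
  map_zero' := Subtype.ext (by simp)
  map_add' f g := Subtype.ext (by simp)

@[simp] theorem symProj_val (p : ℕ) (f : MvPolynomial B ℤ) :
    (symProj B p f).1 = homogeneousComponent p f := rfl

/-- The inclusion of the homogeneous part. -/
def symIncl (B : Type) (p : ℕ) : SymP B p →+ MvPolynomial B ℤ :=
  (MvPolynomial.homogeneousSubmodule B ℤ p).subtype.toAddMonoidHom

@[simp] theorem symIncl_apply (p : ℕ) (f : SymP B p) : symIncl B p f = f.1 := rfl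

theorem symProj_incl (p : ℕ) (f : SymP B p) : symProj B p f.1 = f :=
  Subtype.ext (homogeneousComponent_eq_self f.2)

theorem hc_mul_ne {f a : MvPolynomial B ℤ} {l m j : ℕ} (hf : f.IsHomogeneous l)
    (ha : a.IsHomogeneous m) (h : j ≠ l + m) : homogeneousComponent j (f * a) = 0 := by
  have h1 : f * a ∈ homogeneousSubmodule B ℤ (l + m) := hf.mul ha
  rw [homogeneousComponent_of_mem h1, if_neg h]

theorem hc_mul_lt {f : MvPolynomial B ℤ} {l j : ℕ} (hf : f.IsHomogeneous l) (h : j < l)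
    (a : MvPolynomial B ℤ) : homogeneousComponent j (f * a) = 0 := by
  conv_lhs => rw [← sum_homogeneousComponent a, Finset.mul_sum, map_sum]
  refine Finset.sum_eq_zero (fun i _ => ?_)
  exact hc_mul_ne hf (homogeneousComponent_isHomogeneous i a) (by omega)

theorem hc_mul_eq {f : MvPolynomial B ℤ} {l : ℕ} (hf : f.IsHomogeneous l)
    (a : MvPolynomial B ℤ) : homogeneousComponent l (f * a) = coeff 0 a • f := by
  conv_lhs => rw [← sum_homogeneousComponent a, Finset.mul_sum, map_sum]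
  rw [Finset.sum_eq_single_of_mem 0 (by simp)]
  · rw [homogeneousComponent_zero, mul_comm, homogeneousComponent_C_mul,
      homogeneousComponent_eq_self hf, smul_eq_C_mul]
  · intro i _ hi
    exact hc_mul_ne hf (homogeneousComponent_isHomogeneous i a) (by omega)

end Homog

/-- A levelwise split exact sequence `0 → A → P → C → 0` of reduced chains; `i` and `p` are
compatible with the faces, `r` and `j` need not be. -/
structure SplitSeq (A P C : PSS) where
  i : ∀ n, (A.B n →₀ ℤ) →ₗ[ℤ] (P.B n →₀ ℤ)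
  r : ∀ n, (P.B n →₀ ℤ) →ₗ[ℤ] (A.B n →₀ ℤ)
  j : ∀ n, (C.B n →₀ ℤ) →ₗ[ℤ] (P.B n →₀ ℤ)
  p : ∀ n, (P.B n →₀ ℤ) →ₗ[ℤ] (C.B n →₀ ℤ)
  r_i : ∀ n, r n ∘ₗ i n = LinearMap.id
  p_j : ∀ n, p n ∘ₗ j n = LinearMap.id
  r_j : ∀ n, r n ∘ₗ j n = 0
  p_i : ∀ n, p n ∘ₗ i n = 0
  split : ∀ n, i n ∘ₗ r n + j n ∘ₗ p n = LinearMap.id
  d_i : ∀ n k, k ≤ n + 1 → P.dZ n k ∘ₗ i (n + 1) = i n ∘ₗ A.dZ n k
  d_p : ∀ n k, k ≤ n + 1 → C.dZ n k ∘ₗ p (n + 1) = p n ∘ₗ P.dZ n k

namespace SplitSeq

variable {A P C : PSS} (S : SplitSeq A P C)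

/-- The isomorphism `Sym P → Sym A ⊗ Sym C`. -/
def Phi (n : ℕ) : MvPolynomial (P.B n) ℤ →ₐ[ℤ]
    MvPolynomial (A.B n) ℤ ⊗[ℤ] MvPolynomial (C.B n) ℤ :=
  aeval (fun b => lin _ (S.r n (Finsupp.single b 1)) ⊗ₜ[ℤ] 1 +
    1 ⊗ₜ[ℤ] lin _ (S.p n (Finsupp.single b 1)))

theorem Phi_lin (n : ℕ) (x : P.B n →₀ ℤ) :
    S.Phi n (lin _ x) = lin _ (S.r n x) ⊗ₜ[ℤ] 1 + 1 ⊗ₜ[ℤ] lin _ (S.p n x) := by
  induction x using Finsupp.induction_linear with
  | zero => simp
  | add f g hf hg =>
    simp only [map_add, hf, hg, TensorProduct.add_tmul, TensorProduct.tmul_add]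
    abel
  | single b a =>
    have : (Finsupp.single b a : P.B n →₀ ℤ) = a • Finsupp.single b 1 := by simp
    rw [this]
    simp only [map_zsmul, lin_single, TensorProduct.tmul_smul, ← TensorProduct.smul_tmul']
    rw [← smul_add, Phi, aeval_X]

theorem Phi_i (n : ℕ) (f : MvPolynomial (A.B n) ℤ) :
    S.Phi n (symMap (S.i n) f) = f ⊗ₜ[ℤ] 1 := by
  have h : (S.Phi n).comp (symMap (S.i n)) = Algebra.TensorProduct.includeLeft := by
    refine MvPolynomial.algHom_ext (fun b => ?_)
    rw [AlgHom.comp_apply, symMap_X, Phi_lin, ← LinearMap.comp_apply (S.r n), S.r_i,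
      ← LinearMap.comp_apply (S.p n), S.p_i]
    simp
  exact DFunLike.congr_fun h f

theorem Phi_j (n : ℕ) (f : MvPolynomial (C.B n) ℤ) :
    S.Phi n (symMap (S.j n) f) = 1 ⊗ₜ[ℤ] f := by
  have h : (S.Phi n).comp (symMap (S.j n)) = Algebra.TensorProduct.includeRight := by
    refine MvPolynomial.algHom_ext (fun b => ?_)
    rw [AlgHom.comp_apply, symMap_X, Phi_lin, ← LinearMap.comp_apply (S.r n), S.r_j,
      ← LinearMap.comp_apply (S.p n), S.p_j]
    simp
  exact DFunLike.congr_fun h f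

/-- The inverse isomorphism `Sym A ⊗ Sym C → Sym P`. -/
def mu (n : ℕ) : MvPolynomial (A.B n) ℤ ⊗[ℤ] MvPolynomial (C.B n) ℤ →ₐ[ℤ]
    MvPolynomial (P.B n) ℤ :=
  Algebra.TensorProduct.productMap (symMap (S.i n)) (symMap (S.j n))

theorem mu_Phi (n : ℕ) (x : MvPolynomial (P.B n) ℤ) : S.mu n (S.Phi n x) = x := by
  have h : (S.mu n).comp (S.Phi n) = AlgHom.id ℤ _ := by
    refine MvPolynomial.algHom_ext (fun b => ?_)
    rw [AlgHom.comp_apply, Phi, aeval_X, map_add, mu,
      Algebra.TensorProduct.productMap_apply_tmul, Algebra.TensorProduct.productMap_apply_tmul,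
      symMap_lin, symMap_lin, map_one, map_one, mul_one, one_mul, ← map_add]
    have := LinearMap.congr_fun (S.split n) (Finsupp.single b 1)
    rw [LinearMap.add_apply, LinearMap.comp_apply, LinearMap.comp_apply] at this
    rw [this]
    simp
  exact DFunLike.congr_fun h x

/-- The component in `Sym^a A ⊗ Sym^b C`. -/
def c (n a b : ℕ) : MvPolynomial (P.B n) ℤ →+ SymP (A.B n) a ⊗[ℤ] SymP (C.B n) b :=
  (tmap (symProj (A.B n) a) (symProj (C.B n) b)).comp (S.Phi n).toLinearMap.toAddMonoidHom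

/-- The multiplication `Sym^a A ⊗ Sym^b C → Sym P`. -/
def m (n a b : ℕ) : SymP (A.B n) a ⊗[ℤ] SymP (C.B n) b →+ MvPolynomial (P.B n) ℤ :=
  (S.mu n).toLinearMap.toAddMonoidHom.comp (tmap (symIncl (A.B n) a) (symIncl (C.B n) b))

theorem c_mul_lt (n a b l : ℕ) (hl : a < l) (f : SymP (A.B n) l) (h : MvPolynomial (P.B n) ℤ) :
    S.c n a b (symMap (S.i n) f.1 * h) = 0 := by
  have h1 : ∀ w : MvPolynomial (A.B n) ℤ ⊗[ℤ] MvPolynomial (C.B n) ℤ,
      tmap (symProj (A.B n) a) (symProj (C.B n) b) ((f.1 ⊗ₜ[ℤ] 1) * w) = 0 := by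
    intro w
    induction w using TensorProduct.induction_on with
    | zero => rw [mul_zero, map_zero]
    | tmul x y =>
      rw [Algebra.TensorProduct.tmul_mul_tmul, tmap_tmul]
      have : symProj (A.B n) a (f.1 * x) = 0 := Subtype.ext (hc_mul_lt f.2 hl x)
      rw [this, TensorProduct.zero_tmul]
    | add z w hz hw => rw [mul_add, map_add, hz, hw, add_zero]
  change tmap (symProj (A.B n) a) (symProj (C.B n) b) (S.Phi n (symMap (S.i n) f.1 * h)) = 0
  rw [map_mul, Phi_i, h1]

theorem c_mul_eq (n a b : ℕ) (f : SymP (A.B n) a) (h : MvPolynomial (P.B n) ℤ) :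
    S.c n a b (symMap (S.i n) f.1 * h) = f ⊗ₜ[ℤ] symProj (C.B n) b (symMap (S.p n) h) := by
  set E : MvPolynomial (A.B n) ℤ ⊗[ℤ] MvPolynomial (C.B n) ℤ →ₐ[ℤ] MvPolynomial (C.B n) ℤ :=
    Algebra.TensorProduct.productMap (aeval (fun _ => 0)) (AlgHom.id ℤ _) with hE
  have h1 : ∀ w : MvPolynomial (A.B n) ℤ ⊗[ℤ] MvPolynomial (C.B n) ℤ,
      tmap (symProj (A.B n) a) (symProj (C.B n) b) ((f.1 ⊗ₜ[ℤ] 1) * w) =
        f ⊗ₜ[ℤ] symProj (C.B n) b (E w) := by
    intro w
    induction w using TensorProduct.induction_on with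
    | zero => rw [mul_zero, map_zero, map_zero, map_zero, TensorProduct.tmul_zero]
    | tmul x y =>
      rw [Algebra.TensorProduct.tmul_mul_tmul, tmap_tmul]
      have h2 : symProj (A.B n) a (f.1 * x) = coeff 0 x • f :=
        Subtype.ext (hc_mul_eq f.2 x)
      have h3 : E (x ⊗ₜ[ℤ] y) = coeff 0 x • y := by
        rw [hE, Algebra.TensorProduct.productMap_apply_tmul, aeval_zero', AlgHom.id_apply,
          ← constantCoeff_eq, algebraMap_eq, smul_eq_C_mul]
      rw [h2, h3, one_mul, map_zsmul, TensorProduct.smul_tmul]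
    | add z w hz hw => rw [mul_add, map_add, hz, hw, map_add, map_add, TensorProduct.tmul_add]
  have h4 : E (S.Phi n h) = symMap (S.p n) h := by
    have : E.comp (S.Phi n) = symMap (S.p n) := by
      refine MvPolynomial.algHom_ext (fun b => ?_)
      rw [AlgHom.comp_apply, Phi, aeval_X, map_add, hE,
        Algebra.TensorProduct.productMap_apply_tmul, Algebra.TensorProduct.productMap_apply_tmul]
      have h5 : (aeval (fun _ => (0 : MvPolynomial (C.B n) ℤ)) : MvPolynomial (A.B n) ℤ →ₐ[ℤ] _)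
          (lin _ (S.r n (Finsupp.single b 1))) = 0 := by
        rw [lin, Finsupp.linearCombination_apply, Finsupp.sum, map_sum]
        refine Finset.sum_eq_zero (fun b _ => ?_)
        rw [map_smul, aeval_X, smul_zero]
      rw [h5, zero_mul, zero_add, map_one, one_mul, AlgHom.id_apply, symMap_X]
    exact DFunLike.congr_fun this h
  change tmap (symProj (A.B n) a) (symProj (C.B n) b) (S.Phi n (symMap (S.i n) f.1 * h)) = _
  rw [map_mul, Phi_i, h1, h4]

theorem m_tmul (n a b : ℕ) (f : SymP (A.B n) a) (g : SymP (C.B n) b) :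
    S.m n a b (f ⊗ₜ[ℤ] g) = symMap (S.i n) f.1 * symMap (S.j n) g.1 := rfl

theorem c_m_eq (n a b : ℕ) (z : SymP (A.B n) a ⊗[ℤ] SymP (C.B n) b) :
    S.c n a b (S.m n a b z) = z := by
  refine DFunLike.congr_fun (f := (S.c n a b).comp (S.m n a b)) (g := AddMonoidHom.id _)
    (tadd_ext (fun x y => ?_)) z
  rw [AddMonoidHom.comp_apply, m_tmul, c_mul_eq, symMap_symMap, S.p_j, symMap_id,
    AlgHom.id_apply, symProj_incl]
  rfl

theorem c_m_lt (n a b l b' : ℕ) (hl : a < l) (z : SymP (A.B n) l ⊗[ℤ] SymP (C.B n) b') :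
    S.c n a b (S.m n l b' z) = 0 := by
  refine DFunLike.congr_fun (f := (S.c n a b).comp (S.m n l b')) (g := 0)
    (tadd_ext (fun x y => ?_)) z
  rw [AddMonoidHom.comp_apply, m_tmul, S.c_mul_lt n a b l hl]
  rfl

theorem m_isHomogeneous (n a b : ℕ) (z : SymP (A.B n) a ⊗[ℤ] SymP (C.B n) b) :
    (S.m n a b z).IsHomogeneous (a + b) := by
  induction z using TensorProduct.induction_on with
  | zero => rw [map_zero]; exact isHomogeneous_zero _ _ _
  | tmul x y =>
    rw [m_tmul]
    exact (symMap_isHomogeneous _ x.2).mul (symMap_isHomogeneous _ y.2)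
  | add z w hz hw =>
    rw [map_add]
    exact hz.add hw

/-- Finite decomposition of the elements of `Sym A ⊗ Sym C`. -/
theorem decomp (n : ℕ) (z : MvPolynomial (A.B n) ℤ ⊗[ℤ] MvPolynomial (C.B n) ℤ) :
    ∃ N, ∀ N', N ≤ N' → z = ∑ a ∈ Finset.range N', ∑ b ∈ Finset.range N',
      tmap ((symIncl (A.B n) a).comp (symProj (A.B n) a)) ((symIncl (C.B n) b).comp (symProj (C.B n) b)) z := by
  have h0 : ∀ (B : Type) (x : MvPolynomial B ℤ) (N : ℕ), x.totalDegree + 1 ≤ N →
      ∑ a ∈ Finset.range N, (symIncl B a).comp (symProj B a) x = x := by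
    intro B x N hN
    obtain ⟨t, rfl⟩ := Nat.exists_eq_add_of_le hN
    rw [Finset.sum_range_add]
    have h1 : ∑ a ∈ Finset.range (x.totalDegree + 1), (symIncl B a).comp (symProj B a) x = x :=
      sum_homogeneousComponent x
    rw [h1]
    have h2 : ∑ i ∈ Finset.range t, ((symIncl B (x.totalDegree + 1 + i)).comp
        (symProj B (x.totalDegree + 1 + i))) x = 0 := by
      refine Finset.sum_eq_zero (fun i _ => ?_)
      exact homogeneousComponent_eq_zero _ _ (by omega)
    rw [h2, add_zero]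
  induction z using TensorProduct.induction_on with
  | zero => exact ⟨0, fun N' _ => by simp⟩
  | tmul x y =>
    refine ⟨max (x.totalDegree + 1) (y.totalDegree + 1), fun N' hN' => ?_⟩
    simp only [tmap_tmul]
    have h1 := h0 _ x N' (le_trans (le_max_left _ _) hN')
    have h2 := h0 _ y N' (le_trans (le_max_right _ _) hN')
    conv_lhs => rw [← h1, ← h2, TensorProduct.sum_tmul]
    refine Finset.sum_congr rfl (fun a _ => ?_)
    rw [TensorProduct.tmul_sum]
  | add z w hz hw =>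
    obtain ⟨N, hN⟩ := hz
    obtain ⟨N2, hN2⟩ := hw
    refine ⟨max N N2, fun N' hN' => ?_⟩
    have h1 := hN N' (le_trans (le_max_left _ _) hN')
    have h2 := hN2 N' (le_trans (le_max_right _ _) hN')
    conv_lhs => rw [h1, h2]
    simp only [map_add, Finset.sum_add_distrib]

/-- The decomposition of a homogeneous element of `Sym P`. -/
theorem sum_m_c (n p : ℕ) {x : MvPolynomial (P.B n) ℤ} (hx : x.IsHomogeneous p) :
    ∑ a ∈ Finset.range (p + 1), S.m n a (p - a) (S.c n a (p - a) x) = x := by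
  obtain ⟨N, hN⟩ := decomp n (S.Phi n x)
  have h1 := hN (N + p + 1) (by omega)
  have h2 : x = ∑ a ∈ Finset.range (N + p + 1), ∑ b ∈ Finset.range (N + p + 1),
      S.m n a b (S.c n a b x) := by
    conv_lhs => rw [← S.mu_Phi n x, h1]
    rw [map_sum]
    refine Finset.sum_congr rfl (fun a _ => ?_)
    rw [map_sum]
    refine Finset.sum_congr rfl (fun b _ => ?_)
    change S.mu n _ = S.mu n (tmap (symIncl (A.B n) a) (symIncl (C.B n) b)
      (tmap (symProj (A.B n) a) (symProj (C.B n) b) (S.Phi n x)))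
    congr 1
    generalize S.Phi n x = w
    refine DFunLike.congr_fun (g := (tmap (symIncl (A.B n) a) (symIncl (C.B n) b)).comp
      (tmap (symProj (A.B n) a) (symProj (C.B n) b))) (tadd_ext (fun x y => ?_)) w
    rfl
  have h3 : ∀ a b, homogeneousComponent p (S.m n a b (S.c n a b x)) =
      if b = p - a ∧ a ≤ p then S.m n a b (S.c n a b x) else 0 := by
    intro a b
    have h4 : S.m n a b (S.c n a b x) ∈ homogeneousSubmodule (P.B n) ℤ (a + b) :=
      S.m_isHomogeneous n a b _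
    rw [homogeneousComponent_of_mem h4]
    by_cases h : p = a + b
    · rw [if_pos h, if_pos (by omega)]
    · rw [if_neg h, if_neg (by omega)]
  conv_rhs => rw [← homogeneousComponent_eq_self hx, h2, map_sum]
  rw [show N + p + 1 = (p + 1) + N by ring]
  conv_rhs => rw [Finset.sum_range_add]
  have h5 : ∑ a ∈ Finset.range N, homogeneousComponent p
      (∑ b ∈ Finset.range (p + 1 + N), S.m n (p + 1 + a) b (S.c n (p + 1 + a) b x)) = 0 := by
    refine Finset.sum_eq_zero (fun a _ => ?_)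
    rw [map_sum]
    refine Finset.sum_eq_zero (fun b _ => ?_)
    rw [h3, if_neg (by omega)]
  rw [h5, add_zero]
  refine Finset.sum_congr rfl (fun a ha => ?_)
  have ha' := Finset.mem_range.mp ha
  rw [map_sum, Finset.sum_eq_single_of_mem (p - a) (by rw [Finset.mem_range]; omega)]
  · rw [h3, if_pos (by omega)]
  · intro b _ hb
    rw [h3, if_neg (fun h => hb h.1)]

end SplitSeq

end

end Pool.Agent.Lib.MP_904b2a_gt
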